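import Mathlib

/-!
Definitions for the full answer to MP_6a62cd_co: list and correspondence packing, covers,
straight-line plane drawings.
-/

namespace Pool.Agent.Lib.MP_6a62cd_co.Four

/-- The maps `c 0, …, c (k-1)` are pairwise disjoint proper `L`-colourings of `G`. -/
def IsListPacking {V : Type} (G : SimpleGraph V) {k : ℕ} (L : V → Finset ℕ)
    (c : Fin k → V → ℕ) : Prop :=
  (∀ i v, c i v ∈ L v) ∧ (∀ i u v, G.Adj u v → c i u ≠ c i v) ∧
    (∀ i j v, i ≠ j → c i v ≠ c j v)

/-- Every assignment of lists of size `k` (colours are natural numbers) has a packing. -/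
def ListPackable {V : Type} (G : SimpleGraph V) (k : ℕ) : Prop :=
  ∀ L : V → Finset ℕ, (∀ v, (L v).card = k) → ∃ c : Fin k → V → ℕ, IsListPacking G L c

/-- `H` is a `k`-fold cover of `G`: the vertices of `H` are the pairs `(v, i)`, the list of `v`
is `{v} × Fin k`; lists are cliques, between the lists of adjacent vertices the edges form a
perfect matching, and there are no other edges. -/
def IsCover {V : Type} (G : SimpleGraph V) (k : ℕ) (H : SimpleGraph (V × Fin k)) : Prop :=
  (∀ v i j, i ≠ j → H.Adj (v, i) (v, j)) ∧
  (∀ u v, G.Adj u v → ∀ i, ∃! j, H.Adj (u, i) (v, j)) ∧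
  (∀ u v i j, H.Adj (u, i) (v, j) → u = v ∨ G.Adj u v)

/-- `H` has a packing: the `k` maps `c 0, …, c (k-1)` choose from every list, they are pairwise
disjoint, and each of them is an independent set of `H`. -/
def HasPacking {V : Type} {k : ℕ} (H : SimpleGraph (V × Fin k)) : Prop :=
  ∃ c : Fin k → V → Fin k,
    (∀ v i j, i ≠ j → c i v ≠ c j v) ∧ ∀ i u v, ¬ H.Adj (u, c i u) (v, c i v)

/-- Every `k`-fold cover of `G` has a packing. -/
def CoverPackable {V : Type} (G : SimpleGraph V) (k : ℕ) : Prop :=
  ∀ H : SimpleGraph (V × Fin k), IsCover G k H → HasPacking H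

/-- The list packing number: the least `k ≥ 1` such that `G` is `k`-list-packable. -/
noncomputable def listPackingNumber {V : Type} (G : SimpleGraph V) : ℕ :=
  sInf {k | 1 ≤ k ∧ ListPackable G k}

/-- The correspondence packing number: the least `k ≥ 1` such that every `k`-fold cover of `G` has
a packing. -/
noncomputable def corrPackingNumber {V : Type} (G : SimpleGraph V) : ℕ :=
  sInf {k | 1 ≤ k ∧ CoverPackable G k}

/-- `pos` is a straight-line drawing of `G` in the plane without crossings: vertices are distinct
points, no vertex lies on an edge that does not end in it, and two distinct edges have at most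
end points in common. -/
def IsPlaneDrawing {V : Type} (G : SimpleGraph V) (pos : V → ℝ × ℝ) : Prop :=
  Function.Injective pos ∧
  (∀ u v w, G.Adj u v → w ≠ u → w ≠ v → pos w ∉ segment ℝ (pos u) (pos v)) ∧
  (∀ u v x y, G.Adj u v → G.Adj x y → s(u, v) ≠ s(x, y) →
    ∀ p ∈ segment ℝ (pos u) (pos v), p ∈ segment ℝ (pos x) (pos y) → p = pos u ∨ p = pos v)

/-- `G` is planar: it has a straight-line drawing in the plane without crossings. -/
def IsPlanar {V : Type} (G : SimpleGraph V) : Prop := ∃ pos : V → ℝ × ℝ, IsPlaneDrawing G pos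

/-- `r` shows that `F` is a forest: adjacent vertices have different ranks and every vertex has
at most one neighbour of smaller rank. -/
def RankForest {V : Type} (F : SimpleGraph V) (r : V → ℚ) : Prop :=
  (∀ u v, F.Adj u v → r u ≠ r v) ∧
  ∀ v u u', F.Adj v u → F.Adj v u' → r u < r v → r u' < r v → u = u'

open Classical in
/-- twice the number of edges of `G` inside `S` -/
noncomputable def dartsOn {V : Type} (G : SimpleGraph V) (S : Finset V) : ℕ :=
  ((S ×ˢ S).filter fun p => G.Adj p.1 p.2).card

/-- twice the signed area of the triangle `p q r` -/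
def cr (p q r : ℝ × ℝ) : ℝ := (q.1 - p.1) * (r.2 - p.2) - (q.2 - p.2) * (r.1 - p.1)


end Pool.Agent.Lib.MP_6a62cd_co.Four
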