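import Mathlib
import Pool.Agent.Lib.MP_6a62cd_co.FourDefs

/-!
MP_6a62cd_co, piece A (helper56): values propagate along a rank forest, and every 4-fold cover of a
union of two forests has a packing.
-/

namespace Pool.Agent.Lib.MP_6a62cd_co.Four

/-- Values can be propagated along a forest. -/
theorem RankForest.propagate {V : Type} [Finite V] {F : SimpleGraph V} {r : V → ℚ}
    (h : RankForest F r) {X : Type} [Nonempty X] (R : V → V → X → X → Prop)
    (hs : ∀ u v x y, R u v x y → R v u y x)
    (hex : ∀ u v, F.Adj u v → ∀ x, ∃ y, R u v x y) :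
    ∃ s : V → X, ∀ u v, F.Adj u v → R u v (s u) (s v) := by
  classical
  have := Fintype.ofFinite V
  suffices H : ∀ S : Finset V, ∃ s : V → X, ∀ u ∈ S, ∀ v ∈ S, F.Adj u v → R u v (s u) (s v) by
    obtain ⟨s, hS⟩ := H Finset.univ
    exact ⟨s, fun u v huv => hS u (Finset.mem_univ u) v (Finset.mem_univ v) huv⟩
  intro S
  induction S using Finset.induction_on_max_value r with
  | empty =>
    exact ⟨fun _ => Classical.arbitrary X, fun u hu => absurd hu (Finset.notMem_empty u)⟩
  | insert a S haS hle ih =>
    obtain ⟨s, hS⟩ := ih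
    have hne : ∀ x ∈ S, x ≠ a := fun x hx hxa => haS (hxa ▸ hx)
    by_cases hu0 : ∃ u0 ∈ S, F.Adj a u0
    · obtain ⟨u0, hu0S, hu0⟩ := hu0
      obtain ⟨y, hy⟩ := hex u0 a hu0.symm (s u0)
      have huniq : ∀ v ∈ S, F.Adj a v → v = u0 := by
        intro v hv hav
        refine h.2 a v u0 hav hu0 ?_ ?_
        · exact lt_of_le_of_ne (hle v hv) (fun e => h.1 a v hav e.symm)
        · exact lt_of_le_of_ne (hle u0 hu0S) (fun e => h.1 a u0 hu0 e.symm)
      refine ⟨Function.update s a y, ?_⟩
      intro u hu v hv huv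
      rcases Finset.mem_insert.1 hu with rfl | huS
      · rcases Finset.mem_insert.1 hv with rfl | hvS
        · exact absurd huv (F.irrefl)
        · have hvu := huniq v hvS huv
          subst hvu
          rw [Function.update_self, Function.update_of_ne (hne v hvS)]
          exact hs _ _ _ _ hy
      · rcases Finset.mem_insert.1 hv with rfl | hvS
        · have hvu := huniq u huS huv.symm
          subst hvu
          rw [Function.update_self, Function.update_of_ne (hne u huS)]
          exact hy
        · rw [Function.update_of_ne (hne u huS), Function.update_of_ne (hne v hvS)]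
          exact hS u huS v hvS huv
    · refine ⟨s, ?_⟩
      intro u hu v hv huv
      rcases Finset.mem_insert.1 hu with rfl | huS
      · rcases Finset.mem_insert.1 hv with rfl | hvS
        · exact absurd huv (F.irrefl)
        · exact absurd ⟨v, hvS, huv⟩ hu0
      · rcases Finset.mem_insert.1 hv with rfl | hvS
        · exact absurd ⟨u, huS, huv.symm⟩ hu0
        · exact hS u huS v hvS huv

/-- Between the lists of adjacent vertices a cover is the graph of a permutation. -/
theorem IsCover.exists_perm {V : Type} {G : SimpleGraph V} {k : ℕ}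
    {H : SimpleGraph (V × Fin k)} (hH : IsCover G k H) {u v : V} (huv : G.Adj u v) :
    ∃ σ : Fin k → Fin k, Function.Injective σ ∧ ∀ i j, H.Adj (u, i) (v, j) ↔ σ i = j := by
  choose σ hσ using fun i => hH.2.1 u v huv i
  refine ⟨σ, ?_, ?_⟩
  · intro i i' hii
    have h1 : H.Adj (v, σ i) (u, i) := (hσ i).1.symm
    have h2 : H.Adj (v, σ i) (u, i') := by
      rw [hii]
      exact (hσ i').1.symm
    exact (hH.2.1 v u huv.symm (σ i)).unique h1 h2
  · intro i j
    constructor
    · intro hij
      exact ((hσ i).2 j hij).symm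
    · intro hij
      rw [← hij]
      exact (hσ i).1

/-- Two-element lists: orderings can be propagated along a forest. -/
theorem exists_orderings {V : Type} [Finite V] (G F₂ : SimpleGraph V) {r₂ : V → ℚ}
    (h₂ : RankForest F₂ r₂) {H : SimpleGraph (V × Fin 4)} (hH : IsCover G 4 H)
    (A : V → Finset (Fin 4)) (hA : ∀ v, (A v).card = 2) :
    ∃ a b : V → Fin 4, (∀ v, a v ∈ A v ∧ b v ∈ A v ∧ a v ≠ b v) ∧
      ∀ u v, F₂.Adj u v → ¬ H.Adj (u, a u) (v, a v) ∧ ¬ H.Adj (u, b u) (v, b v) := by
  classical
  have hex : ∀ v, ∃ e : Bool → Fin 4, e true ≠ e false ∧ ∀ x, e x ∈ A v := by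
    intro v
    obtain ⟨x, y, hxy, hAv⟩ := Finset.card_eq_two.1 (hA v)
    refine ⟨fun t => if t then x else y, by simpa using hxy, ?_⟩
    intro t
    rw [hAv]
    cases t <;> simp
  choose e he1 he2 using hex
  have einj : ∀ v x, e v x ≠ e v (!x) := by
    intro v x
    cases x
    · simpa using (he1 v).symm
    · simpa using he1 v
  obtain ⟨s, hs⟩ := h₂.propagate
    (R := fun u v (x y : Bool) => ¬ H.Adj (u, e u x) (v, e v y) ∧ ¬ H.Adj (u, e u !x) (v, e v !y))
    (by
      intro u v x y hR
      exact ⟨fun hc => hR.1 hc.symm, fun hc => hR.2 hc.symm⟩)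
    (by
      intro u v huv x
      by_cases hG : G.Adj u v
      · obtain ⟨σ, hσi, hσ⟩ := hH.exists_perm hG
        by_cases hx : ¬ H.Adj (u, e u x) (v, e v x) ∧ ¬ H.Adj (u, e u !x) (v, e v !x)
        · exact ⟨x, hx⟩
        · refine ⟨!x, ?_⟩
          rw [Bool.not_not]
          simp only [hσ] at hx ⊢
          have hsu : σ (e u x) ≠ σ (e u !x) := fun hc => einj u x (hσi hc)
          have hev := einj v x
          by_cases h1 : σ (e u x) = e v x
          · refine ⟨fun hc => hev (h1.symm.trans hc), fun hc => hsu (h1.trans hc.symm)⟩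
          · have h2 : σ (e u !x) = e v !x := by
              by_contra h2
              exact hx ⟨h1, h2⟩
            refine ⟨fun hc => hsu (hc.trans h2.symm), fun hc => hev (hc.symm.trans h2)⟩
      · have hno : ∀ i j, ¬ H.Adj (u, i) (v, j) := by
          intro i j hij
          rcases hH.2.2 u v i j hij with h | h
          · exact huv.ne h
          · exact hG h
        exact ⟨x, hno _ _, hno _ _⟩)
  refine ⟨fun v => e v (s v), fun v => e v (!(s v)), ?_, ?_⟩
  · intro v
    exact ⟨he2 v _, he2 v _, einj v _⟩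
  · intro u v huv
    exact hs u v huv

/-- Main lemma of piece A: every `4`-fold cover of a union of two forests has a packing. -/
theorem coverPackable_four_of_forests {V : Type} [Finite V] (G F₁ F₂ : SimpleGraph V)
    {r₁ r₂ : V → ℚ} (h₁ : RankForest F₁ r₁) (h₂ : RankForest F₂ r₂)
    (hG : ∀ u v, G.Adj u v → F₁.Adj u v ∨ F₂.Adj u v) : CoverPackable G 4 := by
  classical
  intro H hH
  have : Nonempty {A : Finset (Fin 4) // A.card = 2} := ⟨⟨{0, 1}, rfl⟩⟩
  obtain ⟨A, hA⟩ := h₁.propagate
    (X := {A : Finset (Fin 4) // A.card = 2})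
    (R := fun u v A B => G.Adj u v → (∀ i ∈ A.1, ∀ j ∈ B.1, ¬ H.Adj (u, i) (v, j)) ∧
      (∀ i ∉ A.1, ∀ j ∉ B.1, ¬ H.Adj (u, i) (v, j)))
    (by
      intro u v A B hR hvu
      obtain ⟨hR1, hR2⟩ := hR hvu.symm
      exact ⟨fun i hi j hj hc => hR1 j hj i hi hc.symm, fun i hi j hj hc => hR2 j hj i hi hc.symm⟩)
    (by
      intro u v _ A
      by_cases hadj : G.Adj u v
      · obtain ⟨σ, hσi, hσ⟩ := hH.exists_perm hadj
        refine ⟨⟨(A.1.image σ)ᶜ, ?_⟩, ?_⟩
        · rw [Finset.card_compl, Finset.card_image_of_injective _ hσi, A.2]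
          rfl
        · intro _
          constructor
          · intro i hi j hj hij
            rw [hσ] at hij
            have : j ∈ A.1.image σ := by
              rw [← hij]
              exact Finset.mem_image_of_mem σ hi
            exact Finset.mem_compl.1 hj this
          · intro i hi j hj hij
            rw [hσ] at hij
            rw [Finset.mem_compl, not_not] at hj
            obtain ⟨i', hi', hi'j⟩ := Finset.mem_image.1 hj
            exact hi ((hσi (hi'j.trans hij.symm)) ▸ hi')
      · exact ⟨A, fun h => absurd h hadj⟩)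
  obtain ⟨a, b, hab, hab2⟩ := exists_orderings G F₂ h₂ hH (fun v => (A v).1) (fun v => (A v).2)
  obtain ⟨a', b', hab', hab2'⟩ := exists_orderings G F₂ h₂ hH (fun v => ((A v).1)ᶜ) (by
    intro v
    rw [Finset.card_compl, (A v).2]
    rfl)
  have hd : ∀ (v : V) (x y : Fin 4), x ∈ (A v).1 → y ∈ ((A v).1)ᶜ → x ≠ y := by
    intro v x y hx hy hxy
    rw [Finset.mem_compl] at hy
    exact hy (hxy ▸ hx)
  refine ⟨![a, b, a', b'], ?_, ?_⟩
  · intro v i j hij
    obtain ⟨p1, p2, p3⟩ := hab v
    obtain ⟨q1, q2, q3⟩ := hab' v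
    fin_cases i <;> fin_cases j <;> first
      | exact absurd rfl hij
      | exact p3
      | exact p3.symm
      | exact q3
      | exact q3.symm
      | exact hd v _ _ p1 q1
      | exact hd v _ _ p1 q2
      | exact hd v _ _ p2 q1
      | exact hd v _ _ p2 q2
      | exact (hd v _ _ p1 q1).symm
      | exact (hd v _ _ p1 q2).symm
      | exact (hd v _ _ p2 q1).symm
      | exact (hd v _ _ p2 q2).symm
  · intro i u v hadj
    rcases hH.2.2 _ _ _ _ hadj with huv | huv
    · subst huv
      exact H.irrefl hadj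
    · rcases hG u v huv with hF | hF
      · obtain ⟨hR1, hR2⟩ := hA u v hF huv
        fin_cases i
        · exact hR1 _ (hab u).1 _ (hab v).1 hadj
        · exact hR1 _ (hab u).2.1 _ (hab v).2.1 hadj
        · exact hR2 _ (Finset.mem_compl.1 (hab' u).1) _ (Finset.mem_compl.1 (hab' v).1) hadj
        · exact hR2 _ (Finset.mem_compl.1 (hab' u).2.1) _ (Finset.mem_compl.1 (hab' v).2.1) hadj
      · fin_cases i
        · exact (hab2 u v hF).1 hadj
        · exact (hab2 u v hF).2 hadj
        · exact (hab2' u v hF).1 hadj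
        · exact (hab2' u v hF).2 hadj

end Pool.Agent.Lib.MP_6a62cd_co.Four
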