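import Pool.Agent.Lib.MP_6a62cd_co.FourDefs

/-!
# (2,3)-sparse graphs are unions of two forests (Henneberg induction)
-/

namespace Pool.Agent.Lib.MP_6a62cd_co.Four

open Finset Classical

variable {V : Type}

/-! ### Counting darts -/

theorem dartsOn_mono_of {G G' : SimpleGraph V} {X : Finset V}
    (h : ∀ p ∈ X, ∀ q ∈ X, G'.Adj p q → G.Adj p q) : dartsOn G' X ≤ dartsOn G X := by
  refine card_le_card fun p hp => ?_
  simp only [mem_filter, mem_product] at hp ⊢
  exact ⟨hp.1, h _ hp.1.1 _ hp.1.2 hp.2⟩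

theorem dartsOn_subset {G : SimpleGraph V} {X Y : Finset V} (h : X ⊆ Y) :
    dartsOn G X ≤ dartsOn G Y := by
  refine card_le_card fun p hp => ?_
  simp only [mem_filter, mem_product] at hp ⊢
  exact ⟨⟨h hp.1.1, h hp.1.2⟩, hp.2⟩

theorem dartsOn_eq_sum (G : SimpleGraph V) (X : Finset V) :
    dartsOn G X = ∑ v ∈ X, (X.filter (G.Adj v)).card := by
  unfold dartsOn
  rw [card_eq_sum_card_fiberwise (f := Prod.fst) (t := X) (by
    intro p hp
    simp only [coe_filter, Finset.mem_product, Set.mem_ofPred_eq] at hp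
    exact hp.1.1)]
  refine sum_congr rfl fun v hv => ?_
  refine card_bij (fun p _ => p.2) ?_ ?_ ?_
  · rintro ⟨p, q⟩ hp
    simp only [mem_filter, mem_product] at hp ⊢
    obtain ⟨⟨⟨h1, h2⟩, h3⟩, rfl⟩ := hp
    exact ⟨h2, h3⟩
  · rintro ⟨p, q⟩ hp ⟨p', q'⟩ hp' heq
    simp only [mem_filter, mem_product] at hp hp'
    obtain ⟨⟨⟨h1, h2⟩, h3⟩, rfl⟩ := hp
    obtain ⟨⟨⟨h1', h2'⟩, h3'⟩, rfl⟩ := hp'
    simp only at heq
    rw [heq]
  · intro q hq
    rw [mem_filter] at hq
    refine ⟨(v, q), ?_, rfl⟩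
    simp only [mem_filter, mem_product]
    exact ⟨⟨⟨hv, hq.1⟩, hq.2⟩, trivial⟩

theorem dartsOn_insert (G : SimpleGraph V) (X : Finset V) {v : V} (hv : v ∉ X) :
    dartsOn G (insert v X) = dartsOn G X + 2 * (X.filter (G.Adj v)).card := by
  rw [dartsOn_eq_sum, dartsOn_eq_sum, sum_insert hv]
  have h1 : (insert v X).filter (G.Adj v) = X.filter (G.Adj v) := by
    rw [filter_insert, if_neg (G.loopless.irrefl v)]
  have h2 : ∀ u ∈ X, ((insert v X).filter (G.Adj u)).card =
      (X.filter (G.Adj u)).card + if G.Adj v u then 1 else 0 := by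
    intro u hu
    rw [filter_insert]
    by_cases h : G.Adj u v
    · rw [if_pos h, if_pos h.symm, card_insert_of_notMem (by simp [hv])]
    · rw [if_neg h, if_neg fun h' => h h'.symm, Nat.add_zero]
  have h3 : (∑ u ∈ X, if G.Adj v u then 1 else 0) = (X.filter (G.Adj v)).card := by
    rw [card_filter]
  rw [h1, sum_congr rfl h2, sum_add_distrib, h3]
  omega

theorem even_dartsOn (G : SimpleGraph V) (X : Finset V) : 2 ∣ dartsOn G X := by
  induction X using Finset.induction_on with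
  | empty => simp [dartsOn]
  | insert v X hv ih =>
    rw [dartsOn_insert G X hv]
    omega

theorem dartsOn_super (G : SimpleGraph V) (X Y : Finset V) :
    dartsOn G X + dartsOn G Y ≤ dartsOn G (X ∪ Y) + dartsOn G (X ∩ Y) := by
  unfold dartsOn
  rw [← card_union_add_card_inter]
  refine Nat.add_le_add (card_le_card fun p hp => ?_) (card_le_card fun p hp => ?_)
  · simp only [mem_union, mem_filter, mem_product] at hp ⊢
    tauto
  · simp only [mem_inter, mem_filter, mem_product] at hp ⊢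
    tauto

/-! ### Operations on rank forests -/

/-- Attach the new leaf `v` to `a`. -/
def att (F : SimpleGraph V) (v a : V) (h : a ≠ v) : SimpleGraph V where
  Adj p q := F.Adj p q ∨ (p = v ∧ q = a) ∨ (p = a ∧ q = v)
  symm := ⟨by
    rintro p q (h1 | h1 | h1)
    · exact Or.inl h1.symm
    · exact Or.inr (Or.inr ⟨h1.2, h1.1⟩)
    · exact Or.inr (Or.inl ⟨h1.2, h1.1⟩)⟩
  loopless := ⟨by
    rintro p (h1 | h1 | h1)
    · exact F.loopless.irrefl p h1
    · exact h (h1.2.symm.trans h1.1)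
    · exact h (h1.1.symm.trans h1.2)⟩

theorem att_forest {F : SimpleGraph V} {r : V → ℚ} (hF : RankForest F r) {v a : V}
    (h : a ≠ v) (hv : ∀ x, ¬ F.Adj v x) :
    RankForest (att F v a h) (Function.update r v (r a + 1)) := by
  have hv' : ∀ x, ¬ F.Adj x v := fun x hx => hv x hx.symm
  have hrv : Function.update r v (r a + 1) v = r a + 1 := Function.update_self ..
  have hr : ∀ x, x ≠ v → Function.update r v (r a + 1) x = r x := fun x hx =>
    Function.update_of_ne hx ..
  constructor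
  · rintro p q (h1 | ⟨rfl, rfl⟩ | ⟨rfl, rfl⟩)
    · rw [hr p (by rintro rfl; exact hv _ h1), hr q (by rintro rfl; exact hv' _ h1)]
      exact hF.1 p q h1
    · rw [hrv, hr _ h]
      linarith
    · rw [hrv, hr _ h]
      linarith
  · rintro p u u' (h1 | ⟨rfl, rfl⟩ | ⟨rfl, rfl⟩) (h2 | ⟨h3, h4⟩ | ⟨h3, h4⟩) h5 h6
    · have hp : p ≠ v := by rintro rfl; exact hv _ h1
      rw [hr p hp, hr u (by rintro rfl; exact hv' _ h1)] at h5
      rw [hr p hp, hr u' (by rintro rfl; exact hv' _ h2)] at h6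
      exact hF.2 p u u' h1 h2 h5 h6
    · exact absurd h1 (h3 ▸ hv u)
    · subst h3 h4
      rw [hrv, hr _ h] at h6
      exact absurd h6 (by linarith)
    · exact absurd h2 (hv u')
    · exact h4.symm
    · exact absurd h3 h.symm
    · rw [hrv, hr _ h] at h5
      exact absurd h5 (by linarith)
    · exact absurd h3 h
    · exact h4.symm

/-- Replace the edge `x y` by the path `x v y`. -/
def subd (F : SimpleGraph V) (v x y : V) (hx : x ≠ v) (hy : y ≠ v) : SimpleGraph V where
  Adj p q := (F.Adj p q ∧ ¬ (p = x ∧ q = y) ∧ ¬ (p = y ∧ q = x)) ∨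
    (p = v ∧ (q = x ∨ q = y)) ∨ (q = v ∧ (p = x ∨ p = y))
  symm := ⟨by
    rintro p q (⟨h1, h2, h3⟩ | h1 | h1)
    · exact Or.inl ⟨h1.symm, fun h => h3 ⟨h.2, h.1⟩, fun h => h2 ⟨h.2, h.1⟩⟩
    · exact Or.inr (Or.inr h1)
    · exact Or.inr (Or.inl h1)⟩
  loopless := ⟨by
    rintro p (⟨h1, -⟩ | ⟨h1, h2 | h2⟩ | ⟨h1, h2 | h2⟩)
    · exact F.loopless.irrefl p h1
    · exact hx (h2.symm.trans h1)
    · exact hy (h2.symm.trans h1)
    · exact hx (h2.symm.trans h1)
    · exact hy (h2.symm.trans h1)⟩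

theorem subd_forest_aux {F : SimpleGraph V} {r : V → ℚ} (hF : RankForest F r)
    {v x y : V} (hx : x ≠ v) (hy : y ≠ v) (hv : ∀ z, ¬ F.Adj v z) (hxy : F.Adj x y)
    (hlt : r x < r y) :
    RankForest (subd F v x y hx hy) (Function.update r v ((r x + r y) / 2)) := by
  have hv' : ∀ z, ¬ F.Adj z v := fun z hz => hv z hz.symm
  have hrv : Function.update r v ((r x + r y) / 2) v = (r x + r y) / 2 := Function.update_self ..
  have hr : ∀ z, z ≠ v → Function.update r v ((r x + r y) / 2) z = r z := fun z hz =>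
    Function.update_of_ne hz ..
  have hm1 : r x < (r x + r y) / 2 := by linarith
  have hm2 : (r x + r y) / 2 < r y := by linarith
  constructor
  · rintro p q (⟨h1, -⟩ | ⟨rfl, rfl | rfl⟩ | ⟨rfl, rfl | rfl⟩)
    · rw [hr p (by rintro rfl; exact hv _ h1), hr q (by rintro rfl; exact hv' _ h1)]
      exact hF.1 p q h1
    · rw [hrv, hr _ hx]
      exact hm1.ne'
    · rw [hrv, hr _ hy]
      exact hm2.ne
    · rw [hrv, hr _ hx]
      exact hm1.ne
    · rw [hrv, hr _ hy]
      exact hm2.ne'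
  · -- the smaller neighbours
    have key : ∀ p u, (subd F v x y hx hy).Adj p u →
        Function.update r v ((r x + r y) / 2) u < Function.update r v ((r x + r y) / 2) p →
        (p = v ∧ u = x) ∨ (p = y ∧ u = v) ∨ (p ≠ v ∧ p ≠ y ∧ F.Adj p u ∧ r u < r p) := by
      rintro p u (⟨h1, h2, h3⟩ | ⟨rfl, rfl | rfl⟩ | ⟨rfl, rfl | rfl⟩) h5
      · have hp : p ≠ v := by rintro rfl; exact hv _ h1
        rw [hr p hp, hr u (by rintro rfl; exact hv' _ h1)] at h5
        refine Or.inr (Or.inr ⟨hp, ?_, h1, h5⟩)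
        rintro rfl
        exact h3 ⟨rfl, hF.2 p u x h1 hxy.symm h5 hlt⟩
      · exact Or.inl ⟨rfl, rfl⟩
      · rw [hrv, hr _ hy] at h5
        exact absurd h5 (by linarith)
      · rw [hrv, hr _ hx] at h5
        exact absurd h5 (by linarith)
      · exact Or.inr (Or.inl ⟨rfl, rfl⟩)
    intro p u u' h1 h2 h3 h4
    rcases key p u h1 h3 with ⟨h5, h6⟩ | ⟨h5, h6⟩ | ⟨h5, h6, h7, h8⟩
    · rcases key p u' h2 h4 with ⟨h5', h6'⟩ | ⟨h5', h6'⟩ | ⟨h5', h6', h7', h8'⟩
      · rw [h6, h6']
      · exact absurd (h5'.symm.trans h5) hy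
      · exact absurd h5 h5'
    · rcases key p u' h2 h4 with ⟨h5', h6'⟩ | ⟨h5', h6'⟩ | ⟨h5', h6', h7', h8'⟩
      · exact absurd (h5.symm.trans h5') hy
      · rw [h6, h6']
      · exact absurd h5 h6'
    · rcases key p u' h2 h4 with ⟨h5', h6'⟩ | ⟨h5', h6'⟩ | ⟨h5', h6', h7', h8'⟩
      · exact absurd h5' h5
      · exact absurd h5' h6
      · exact hF.2 p u u' h7 h7' h8 h8'

theorem subd_forest {F : SimpleGraph V} {r : V → ℚ} (hF : RankForest F r)
    {v x y : V} (hx : x ≠ v) (hy : y ≠ v) (hv : ∀ z, ¬ F.Adj v z) (hxy : F.Adj x y) :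
    RankForest (subd F v x y hx hy) (Function.update r v ((r x + r y) / 2)) := by
  rcases lt_or_gt_of_ne (hF.1 x y hxy) with h | h
  · exact subd_forest_aux hF hx hy hv hxy h
  · have h1 := subd_forest_aux hF hy hx hv hxy.symm h
    have h2 : subd F v y x hy hx = subd F v x y hx hy := by
      ext p q
      simp only [subd]
      tauto
    rw [h2, add_comm (r y)] at h1
    exact h1

/-! ### The induction -/

/-- `(2,3)`-sparse graphs. -/
def Sparse (G : SimpleGraph V) : Prop := ∀ S : Finset V, 2 ≤ S.card → dartsOn G S + 6 ≤ 4 * S.card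

/-- All edges are inside `S`. -/
def Supp (G : SimpleGraph V) (S : Finset V) : Prop := ∀ u v, G.Adj u v → u ∈ S

/-- The conclusion of the induction. -/
def TwoForests (G : SimpleGraph V) (S : Finset V) : Prop :=
  ∃ (F₁ F₂ : SimpleGraph V) (r₁ r₂ : V → ℚ), Supp F₁ S ∧ Supp F₂ S ∧ RankForest F₁ r₁ ∧
    RankForest F₂ r₂ ∧ ∀ u v, G.Adj u v → F₁.Adj u v ∨ F₂.Adj u v

/-- The pair `x, y` is inside a tight set which avoids `v`. -/
def Tight (G : SimpleGraph V) (v x y : V) : Prop :=
  ∃ X : Finset V, 2 ≤ X.card ∧ v ∉ X ∧ x ∈ X ∧ y ∈ X ∧ 4 * X.card ≤ dartsOn G X + 6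

/-- If the three neighbours of `v` are in a tight set `Z`, we have a contradiction. -/
theorem no_big_tight {G : SimpleGraph V} (hG : Sparse G) {v a b c : V} (hva : G.Adj v a)
    (hvb : G.Adj v b) (hvc : G.Adj v c) (hab : a ≠ b) (hbc : b ≠ c) (hca : c ≠ a)
    {Z : Finset V} (hv : v ∉ Z) (ha : a ∈ Z) (hb : b ∈ Z) (hc : c ∈ Z)
    (hZ : 4 * Z.card ≤ dartsOn G Z + 6) : False := by
  have h1 := dartsOn_insert G Z hv
  have h2 : ({a, b, c} : Finset V) ⊆ Z.filter (G.Adj v) := by
    intro w hw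
    simp only [mem_insert, mem_singleton] at hw
    rw [mem_filter]
    rcases hw with rfl | rfl | rfl
    · exact ⟨ha, hva⟩
    · exact ⟨hb, hvb⟩
    · exact ⟨hc, hvc⟩
  have h3 : ({a, b, c} : Finset V).card = 3 := by
    rw [card_eq_three]
    exact ⟨a, b, c, hab, hca.symm, hbc, rfl⟩
  have h4 := card_le_card h2
  have h5 : (insert v Z).card = Z.card + 1 := card_insert_of_notMem hv
  have h6 := card_pos.2 ⟨a, ha⟩
  have h7 := hG (insert v Z) (by omega)
  omega

theorem inter_card_lt {G : SimpleGraph V} (hG : Sparse G) {v a b c : V} (hva : G.Adj v a)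
    (hvb : G.Adj v b) (hvc : G.Adj v c) (hab : a ≠ b) (hbc : b ≠ c) (hca : c ≠ a)
    {X Y : Finset V} (hvX : v ∉ X) (hvY : v ∉ Y)
    (ha : a ∈ X ∪ Y) (hb : b ∈ X ∪ Y) (hc : c ∈ X ∪ Y)
    (hX : 4 * X.card ≤ dartsOn G X + 6) (hY : 4 * Y.card ≤ dartsOn G Y + 6) :
    (X ∩ Y).card < 2 := by
  by_contra hcon
  push Not at hcon
  have h1 := hG _ hcon
  have h2 := dartsOn_super G X Y
  have h3 := card_union_add_card_inter X Y
  have h4 : v ∉ X ∪ Y := by
    rw [mem_union]
    tauto
  refine no_big_tight hG hva hvb hvc hab hbc hca h4 ha hb hc ?_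
  omega

theorem not_all_tight {G : SimpleGraph V} (hG : Sparse G) {v a b c : V} (hva : G.Adj v a)
    (hvb : G.Adj v b) (hvc : G.Adj v c) (hab : a ≠ b) (hbc : b ≠ c) (hca : c ≠ a)
    (h1 : Tight G v a b) (h2 : Tight G v b c) (h3 : Tight G v c a) : False := by
  obtain ⟨X, hX2, hvX, haX, hbX, hX⟩ := h1
  obtain ⟨Y, hY2, hvY, hbY, hcY, hY⟩ := h2
  obtain ⟨W, hW2, hvW, hcW, haW, hW⟩ := h3
  have hXY := inter_card_lt hG hva hvb hvc hab hbc hca (X := X) (Y := Y) hvX hvY
    (by simp [haX]) (by simp [hbX]) (by simp [hcY]) hX hY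
  have hYW := inter_card_lt hG hva hvb hvc hab hbc hca (X := Y) (Y := W) hvY hvW
    (by simp [haW]) (by simp [hbY]) (by simp [hcY]) hY hW
  have hXW := inter_card_lt hG hva hvb hvc hab hbc hca (X := X) (Y := W) hvX hvW
    (by simp [haX]) (by simp [hbX]) (by simp [hcW]) hX hW
  have hdisj : ∀ A B : Finset V, (A ∩ B).card < 2 →
      Disjoint ((A ×ˢ A).filter fun p => G.Adj p.1 p.2) ((B ×ˢ B).filter fun p => G.Adj p.1 p.2) := by
    intro A B hAB
    rw [disjoint_left]
    rintro ⟨p, q⟩ hp hq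
    simp only [mem_filter, mem_product] at hp hq
    have h4 : ({p, q} : Finset V) ⊆ A ∩ B := by
      intro w hw
      simp only [mem_insert, mem_singleton] at hw
      rw [mem_inter]
      rcases hw with rfl | rfl
      · exact ⟨hp.1.1, hq.1.1⟩
      · exact ⟨hp.1.2, hq.1.2⟩
    have h5 := card_le_card h4
    rw [card_pair hp.2.ne] at h5
    omega
  have h4 : dartsOn G X + dartsOn G Y + dartsOn G W ≤ dartsOn G (X ∪ Y ∪ W) := by
    unfold dartsOn
    rw [← card_union_of_disjoint (hdisj X Y hXY), ← card_union_of_disjoint (by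
      rw [disjoint_union_left]
      exact ⟨hdisj X W hXW, hdisj Y W hYW⟩)]
    refine card_le_card fun p hp => ?_
    simp only [mem_union, mem_filter, mem_product] at hp ⊢
    tauto
  have h5 := card_union_add_card_inter X Y
  have h6 := card_union_add_card_inter (X ∪ Y) W
  have h7 : 1 ≤ (X ∩ Y).card := card_pos.2 ⟨b, mem_inter.2 ⟨hbX, hbY⟩⟩
  have h8 : 2 ≤ ((X ∪ Y) ∩ W).card := by
    rw [← card_pair hca]
    refine card_le_card fun w hw => ?_
    simp only [mem_insert, mem_singleton] at hw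
    rw [mem_inter, mem_union]
    rcases hw with rfl | rfl
    · exact ⟨Or.inr hcY, hcW⟩
    · exact ⟨Or.inl haX, haW⟩
  refine no_big_tight hG hva hvb hvc hab hbc hca (Z := X ∪ Y ∪ W) (by
    simp only [mem_union]
    tauto) (by simp [haX]) (by simp [hbX]) (by simp [hcY]) ?_
  omega

/-- The case of a vertex of degree at most two. -/
theorem step_two {G : SimpleGraph V} (hG : Sparse G) {S : Finset V} (hS : Supp G S)
    (ih : ∀ G' : SimpleGraph V, Sparse G' → ∀ v ∈ S, Supp G' (S.erase v) →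
      TwoForests G' (S.erase v)) {v a b : V} (hv : v ∈ S) (ha : a ∈ S) (hb : b ∈ S) (hav : a ≠ v)
    (hbv : b ≠ v) (hN : ∀ w, G.Adj v w → w = a ∨ w = b) : TwoForests G S := by
  let G' : SimpleGraph V :=
    { Adj := fun p q => G.Adj p q ∧ p ≠ v ∧ q ≠ v
      symm := ⟨fun p q h => ⟨h.1.symm, h.2.2, h.2.1⟩⟩
      loopless := ⟨fun p h => G.loopless.irrefl p h.1⟩ }
  have h1 : Sparse G' := fun X hX =>
    (Nat.add_le_add_right (dartsOn_mono_of (G := G) (G' := G') fun p _ q _ h => h.1) 6).trans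
      (hG X hX)
  have h2 : Supp G' (S.erase v) := fun p q h => mem_erase.2 ⟨h.2.1, hS p q h.1⟩
  obtain ⟨F₁, F₂, r₁, r₂, hs1, hs2, hf1, hf2, hc⟩ := ih G' h1 v hv h2
  have hv1 : ∀ z, ¬ F₁.Adj v z := fun z hz => (mem_erase.1 (hs1 v z hz)).1 rfl
  have hv2 : ∀ z, ¬ F₂.Adj v z := fun z hz => (mem_erase.1 (hs2 v z hz)).1 rfl
  refine ⟨att F₁ v a hav, att F₂ v b hbv, _, _, ?_, ?_, att_forest hf1 hav hv1,
    att_forest hf2 hbv hv2, ?_⟩
  · rintro p q (h | ⟨rfl, rfl⟩ | ⟨rfl, rfl⟩)
    · exact (mem_erase.1 (hs1 p q h)).2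
    · exact hv
    · exact ha
  · rintro p q (h | ⟨rfl, rfl⟩ | ⟨rfl, rfl⟩)
    · exact (mem_erase.1 (hs2 p q h)).2
    · exact hv
    · exact hb
  · intro p q h
    by_cases hp : p = v
    · subst hp
      rcases hN q h with rfl | rfl
      · exact Or.inl (Or.inr (Or.inl ⟨rfl, rfl⟩))
      · exact Or.inr (Or.inr (Or.inl ⟨rfl, rfl⟩))
    · by_cases hq : q = v
      · subst hq
        rcases hN p h.symm with rfl | rfl
        · exact Or.inl (Or.inr (Or.inr ⟨rfl, rfl⟩))
        · exact Or.inr (Or.inr (Or.inr ⟨rfl, rfl⟩))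
      · rcases hc p q ⟨h, hp, hq⟩ with h' | h'
        · exact Or.inl (Or.inl h')
        · exact Or.inr (Or.inl h')

/-- The case of a vertex of degree three. -/
theorem step_three {G : SimpleGraph V} (hG : Sparse G) {S : Finset V} (hS : Supp G S)
    (ih : ∀ G' : SimpleGraph V, Sparse G' → ∀ v ∈ S, Supp G' (S.erase v) →
      TwoForests G' (S.erase v)) {v x y z : V} (hvx : G.Adj v x) (hvy : G.Adj v y)
    (hvz : G.Adj v z) (hxy : x ≠ y) (hN : ∀ w, G.Adj v w → w = x ∨ w = y ∨ w = z)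
    (hT : ¬ Tight G v x y) : TwoForests G S := by
  have hv : v ∈ S := hS v x hvx
  have hx : x ∈ S := hS x v hvx.symm
  have hy : y ∈ S := hS y v hvy.symm
  have hz : z ∈ S := hS z v hvz.symm
  have hxv : x ≠ v := hvx.ne'
  have hyv : y ≠ v := hvy.ne'
  have hzv : z ≠ v := hvz.ne'
  have hnadj : ¬ G.Adj x y := by
    intro h
    refine hT ⟨{x, y}, by rw [card_pair hxy], by
      simp only [mem_insert, mem_singleton]
      rintro (h' | h')
      · exact hxv h'.symm
      · exact hyv h'.symm, by simp, by simp, ?_⟩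
    rw [card_pair hxy]
    have h1 := dartsOn_insert G ({y} : Finset V) (v := x) (by simpa using hxy)
    have h2 : (({y} : Finset V).filter (G.Adj x)).card = 1 := by
      rw [filter_singleton, if_pos h, card_singleton]
    rw [h2] at h1
    omega
  let G' : SimpleGraph V :=
    { Adj := fun p q => (G.Adj p q ∧ p ≠ v ∧ q ≠ v) ∨ (p = x ∧ q = y) ∨ (p = y ∧ q = x)
      symm := ⟨by
        rintro p q (h | h | h)
        · exact Or.inl ⟨h.1.symm, h.2.2, h.2.1⟩
        · exact Or.inr (Or.inr ⟨h.2, h.1⟩)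
        · exact Or.inr (Or.inl ⟨h.2, h.1⟩)⟩
      loopless := ⟨by
        rintro p (h | h | h)
        · exact G.loopless.irrefl p h.1
        · exact hxy (h.1.symm.trans h.2)
        · exact hxy (h.2.symm.trans h.1)⟩ }
  have h1 : Sparse G' := by
    intro X hX
    by_cases hXY : x ∈ X ∧ y ∈ X
    · have hxX : x ∈ X.erase v := mem_erase.2 ⟨hxv, hXY.1⟩
      have hyX : y ∈ X.erase v := mem_erase.2 ⟨hyv, hXY.2⟩
      have h2 : 2 ≤ (X.erase v).card := by
        rw [← card_pair hxy]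
        refine card_le_card fun w hw => ?_
        simp only [mem_insert, mem_singleton] at hw
        rcases hw with rfl | rfl
        · exact hxX
        · exact hyX
      have h3 : ¬ 4 * (X.erase v).card ≤ dartsOn G (X.erase v) + 6 := fun h =>
        hT ⟨X.erase v, h2, notMem_erase v X, hxX, hyX, h⟩
      have h4 := even_dartsOn G (X.erase v)
      have h5 : dartsOn G' X ≤ dartsOn G (X.erase v) + 2 := by
        unfold dartsOn
        refine (card_le_card (t := (((X.erase v) ×ˢ (X.erase v)).filter fun p =>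
          G.Adj p.1 p.2) ∪ {(x, y), (y, x)}) ?_).trans ((card_union_le _ _).trans
            (Nat.add_le_add_left card_le_two _))
        rintro ⟨p, q⟩ hp
        simp only [mem_filter, mem_product, mem_union, mem_insert, mem_singleton,
          Prod.mk.injEq, mem_erase] at hp ⊢
        obtain ⟨⟨h7, h8⟩, h9 | h9 | h9⟩ := hp
        · exact Or.inl ⟨⟨⟨h9.2.1, h7⟩, h9.2.2, h8⟩, h9.1⟩
        · exact Or.inr (Or.inl h9)
        · exact Or.inr (Or.inr h9)
      have h6 := card_le_card (erase_subset v X)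
      omega
    · refine (Nat.add_le_add_right (dartsOn_mono_of (G := G) (G' := G')
        fun p hp q hq h => ?_) 6).trans (hG X hX)
      rcases h with h | ⟨rfl, rfl⟩ | ⟨rfl, rfl⟩
      · exact h.1
      · exact absurd ⟨hp, hq⟩ hXY
      · exact absurd ⟨hq, hp⟩ hXY
  have h2 : Supp G' (S.erase v) := by
    rintro p q (h | ⟨rfl, rfl⟩ | ⟨rfl, rfl⟩)
    · exact mem_erase.2 ⟨h.2.1, hS p q h.1⟩
    · exact mem_erase.2 ⟨hxv, hx⟩
    · exact mem_erase.2 ⟨hyv, hy⟩
  obtain ⟨F₁, F₂, r₁, r₂, hs1, hs2, hf1, hf2, hc⟩ := ih G' h1 v hv h2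
  -- by symmetry the edge `x y` is in the first forest
  have main : ∀ (F₁ F₂ : SimpleGraph V) (r₁ r₂ : V → ℚ), Supp F₁ (S.erase v) →
      Supp F₂ (S.erase v) → RankForest F₁ r₁ → RankForest F₂ r₂ →
      (∀ u w, G'.Adj u w → F₁.Adj u w ∨ F₂.Adj u w) → F₁.Adj x y → TwoForests G S := by
    intro F₁ F₂ r₁ r₂ hs1 hs2 hf1 hf2 hc hF
    have hv1 : ∀ z, ¬ F₁.Adj v z := fun z hz => (mem_erase.1 (hs1 v z hz)).1 rfl
    have hv2 : ∀ z, ¬ F₂.Adj v z := fun z hz => (mem_erase.1 (hs2 v z hz)).1 rfl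
    refine ⟨subd F₁ v x y hxv hyv, att F₂ v z hzv, _, _, ?_, ?_,
      subd_forest hf1 hxv hyv hv1 hF, att_forest hf2 hzv hv2, ?_⟩
    · rintro p q (⟨h, -⟩ | ⟨rfl, -⟩ | ⟨-, rfl | rfl⟩)
      · exact (mem_erase.1 (hs1 p q h)).2
      · exact hv
      · exact hx
      · exact hy
    · rintro p q (h | ⟨rfl, rfl⟩ | ⟨rfl, rfl⟩)
      · exact (mem_erase.1 (hs2 p q h)).2
      · exact hv
      · exact hz
    · intro p q h
      by_cases hp : p = v
      · subst hp
        rcases hN q h with rfl | rfl | rfl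
        · exact Or.inl (Or.inr (Or.inl ⟨rfl, Or.inl rfl⟩))
        · exact Or.inl (Or.inr (Or.inl ⟨rfl, Or.inr rfl⟩))
        · exact Or.inr (Or.inr (Or.inl ⟨rfl, rfl⟩))
      · by_cases hq : q = v
        · subst hq
          rcases hN p h.symm with rfl | rfl | rfl
          · exact Or.inl (Or.inr (Or.inr ⟨rfl, Or.inl rfl⟩))
          · exact Or.inl (Or.inr (Or.inr ⟨rfl, Or.inr rfl⟩))
          · exact Or.inr (Or.inr (Or.inr ⟨rfl, rfl⟩))
        · rcases hc p q (Or.inl ⟨h, hp, hq⟩) with h' | h'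
          · refine Or.inl (Or.inl ⟨h', ?_, ?_⟩)
            · rintro ⟨rfl, rfl⟩
              exact hnadj h
            · rintro ⟨rfl, rfl⟩
              exact hnadj h.symm
          · exact Or.inr (Or.inl h')
  rcases hc x y (Or.inr (Or.inl ⟨rfl, rfl⟩)) with h | h
  · exact main F₁ F₂ r₁ r₂ hs1 hs2 hf1 hf2 hc h
  · exact main F₂ F₁ r₂ r₁ hs2 hs1 hf2 hf1 (fun u w h' => (hc u w h').symm) h

theorem twoForests_of_sparse (n : ℕ) : ∀ (S : Finset V), S.card = n → ∀ G : SimpleGraph V,
    Sparse G → Supp G S → TwoForests G S := by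
  induction n with
  | zero =>
    intro S hS G _ hs
    rw [card_eq_zero] at hS
    subst hS
    refine ⟨⊥, ⊥, 0, 0, ?_, ?_, ?_, ?_, fun u v h => absurd (hs u v h) (notMem_empty u)⟩
    · intro u v h
      exact absurd h (by simp)
    · intro u v h
      exact absurd h (by simp)
    · constructor <;> simp
    · constructor <;> simp
  | succ n ih =>
    intro S hS G hG hs
    have ih' : ∀ G' : SimpleGraph V, Sparse G' → ∀ v ∈ S, Supp G' (S.erase v) →
        TwoForests G' (S.erase v) := fun G' h1 v hv h2 =>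
      ih _ (by rw [card_erase_of_mem hv, hS]; rfl) G' h1 h2
    rcases Nat.eq_zero_or_pos n with rfl | hn
    · -- one vertex: no edges
      obtain ⟨v, rfl⟩ := card_eq_one.1 hS
      refine ⟨⊥, ⊥, 0, 0, ?_, ?_, ?_, ?_, fun u w h => ?_⟩
      · intro u v h
        exact absurd h (by simp)
      · intro u v h
        exact absurd h (by simp)
      · constructor <;> simp
      · constructor <;> simp
      · have h1 := mem_singleton.1 (hs u w h)
        have h2 := mem_singleton.1 (hs w u h.symm)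
        exact absurd (h1.trans h2.symm) h.ne
    -- a vertex of degree at most three
    have hdeg : ∃ v ∈ S, (S.filter (G.Adj v)).card ≤ 3 := by
      by_contra hcon
      push Not at hcon
      have h1 := hG S (by omega)
      rw [dartsOn_eq_sum] at h1
      have h2 : ∑ v ∈ S, 4 ≤ ∑ v ∈ S, (S.filter (G.Adj v)).card :=
        sum_le_sum fun v hv => hcon v hv
      rw [sum_const, smul_eq_mul] at h2
      omega
    obtain ⟨v, hv, hdeg⟩ := hdeg
    have hN : ∀ w, G.Adj v w → w ∈ S.filter (G.Adj v) := fun w hw =>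
      mem_filter.2 ⟨hs w v hw.symm, hw⟩
    rcases Nat.lt_or_ge (S.filter (G.Adj v)).card 3 with h | h
    · -- at most two neighbours
      obtain ⟨a₀, ha₀⟩ : (S.erase v).Nonempty := by
        rw [← card_pos, card_erase_of_mem hv, hS]
        exact hn
      have h2 : ∃ a ∈ S, a ≠ v ∧ ∃ b ∈ S, b ≠ v ∧ ∀ w, G.Adj v w → w = a ∨ w = b := by
        have h3 : (S.filter (G.Adj v)).card = 0 ∨ (S.filter (G.Adj v)).card = 1 ∨
          (S.filter (G.Adj v)).card = 2 := by omega
        have h4 : ∀ w ∈ S.filter (G.Adj v), w ∈ S ∧ w ≠ v := fun w hw =>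
          ⟨(mem_filter.1 hw).1, (mem_filter.1 hw).2.ne'⟩
        rcases h3 with h3 | h3 | h3
        · rw [card_eq_zero] at h3
          refine ⟨a₀, (mem_erase.1 ha₀).2, (mem_erase.1 ha₀).1, a₀, (mem_erase.1 ha₀).2,
            (mem_erase.1 ha₀).1, fun w hw => ?_⟩
          exact absurd (hN w hw) (by rw [h3]; simp)
        · obtain ⟨a, h5⟩ := card_eq_one.1 h3
          have h6 := h4 a (by rw [h5]; simp)
          refine ⟨a, h6.1, h6.2, a, h6.1, h6.2, fun w hw => ?_⟩
          have := hN w hw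
          rw [h5, mem_singleton] at this
          exact Or.inl this
        · obtain ⟨a, b, -, h5⟩ := card_eq_two.1 h3
          have h6 := h4 a (by rw [h5]; simp)
          have h7 := h4 b (by rw [h5]; simp)
          refine ⟨a, h6.1, h6.2, b, h7.1, h7.2, fun w hw => ?_⟩
          have := hN w hw
          rw [h5, mem_insert, mem_singleton] at this
          exact this
      obtain ⟨a, ha, hav, b, hb, hbv, h3⟩ := h2
      exact step_two hG hs ih' hv ha hb hav hbv h3
    · -- three neighbours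
      have h3 : (S.filter (G.Adj v)).card = 3 := le_antisymm hdeg h
      obtain ⟨a, b, c, hab, hac, hbc, h4⟩ := card_eq_three.1 h3
      have hva : G.Adj v a := (mem_filter.1 (by rw [h4]; simp : a ∈ S.filter (G.Adj v))).2
      have hvb : G.Adj v b := (mem_filter.1 (by rw [h4]; simp : b ∈ S.filter (G.Adj v))).2
      have hvc : G.Adj v c := (mem_filter.1 (by rw [h4]; simp : c ∈ S.filter (G.Adj v))).2
      have h5 : ∀ w, G.Adj v w → w = a ∨ w = b ∨ w = c := by
        intro w hw
        have := hN w hw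
        rw [h4, mem_insert, mem_insert, mem_singleton] at this
        exact this
      by_cases h6 : Tight G v a b
      · by_cases h7 : Tight G v b c
        · by_cases h8 : Tight G v c a
          · exact (not_all_tight hG hva hvb hvc hab hbc hac.symm h6 h7 h8).elim
          · exact step_three hG hs ih' hvc hva hvb hac.symm (fun w hw => by
              rcases h5 w hw with h | h | h <;> tauto) h8
        · exact step_three hG hs ih' hvb hvc hva hbc (fun w hw => by
            rcases h5 w hw with h | h | h <;> tauto) h7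
      · exact step_three hG hs ih' hva hvb hvc hab h5 h6

/-- A simple graph with at most `2|S| - 3` edges inside every set `S` with at least 2 vertices is
a union of two forests (Henneberg induction on the number of vertices). -/
theorem exists_forests {V : Type} [Finite V] (G : SimpleGraph V)
    (h : ∀ S : Finset V, 2 ≤ S.card → dartsOn G S + 6 ≤ 4 * S.card) :
    ∃ (F₁ F₂ : SimpleGraph V) (r₁ r₂ : V → ℚ), RankForest F₁ r₁ ∧ RankForest F₂ r₂ ∧
      ∀ u v, G.Adj u v → F₁.Adj u v ∨ F₂.Adj u v := by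
  have := Fintype.ofFinite V
  obtain ⟨F₁, F₂, r₁, r₂, -, -, h1, h2, h3⟩ := twoForests_of_sparse _ (univ : Finset V) rfl G h
    fun u _ _ => mem_univ u
  exact ⟨F₁, F₂, r₁, r₂, h1, h2, h3⟩

end Pool.Agent.Lib.MP_6a62cd_co.Four
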