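import Pool.Agent.Lib.MP_6a62cd_co.FourDefs

/-!
MP_6a62cd_co, piece C: list packing from correspondence packing.
-/

namespace Pool.Agent.Lib.MP_6a62cd_co.Four

/-- Two enumerated lists of the same size: there is a bijection of the indices which matches equal
colours. -/
theorem exists_matching_perm {k : ℕ} {A B : Finset ℕ} (e : Fin k ≃ A) (f : Fin k ≃ B) :
    ∃ s : Equiv.Perm (Fin k), ∀ i j, (e i : ℕ) = (f j : ℕ) → s i = j := by
  classical
  let p : Fin k → Prop := fun i => (e i : ℕ) ∈ B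
  let q : Fin k → Prop := fun j => (f j : ℕ) ∈ A
  let g : {i // p i} ≃ {j // q j} :=
    { toFun := fun i => ⟨f.symm ⟨(e i.1 : ℕ), i.2⟩, by
        show ((f (f.symm ⟨(e i.1 : ℕ), i.2⟩) : B) : ℕ) ∈ A
        rw [Equiv.apply_symm_apply]
        exact (e i.1).2⟩
      invFun := fun j => ⟨e.symm ⟨(f j.1 : ℕ), j.2⟩, by
        show ((e (e.symm ⟨(f j.1 : ℕ), j.2⟩) : A) : ℕ) ∈ B
        rw [Equiv.apply_symm_apply]
        exact (f j.1).2⟩
      left_inv := by
        intro i
        apply Subtype.ext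
        simp
      right_inv := by
        intro j
        apply Subtype.ext
        simp }
  refine ⟨g.extendSubtype, fun i j h => ?_⟩
  have hp : p i := by
    show (e i : ℕ) ∈ B
    rw [h]
    exact (f j).2
  rw [Equiv.extendSubtype_apply_of_mem g i hp]
  show f.symm ⟨(e i : ℕ), hp⟩ = j
  rw [Equiv.symm_apply_eq]
  exact Subtype.ext h

/-- `χ*_ℓ ≤ χ*_c`. -/
theorem CoverPackable.listPackable {V : Type} {G : SimpleGraph V} {k : ℕ}
    (h : CoverPackable G k) : ListPackable G k := by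
  classical
  intro L hL
  have e : ∀ v, Fin k ≃ L v := fun v => (Finset.equivFinOfCardEq (hL v)).symm
  choose t ht using fun u v => exists_matching_perm (e u) (e v)
  let _ : LinearOrder V := IsWellOrder.linearOrder WellOrderingRel
  -- symmetrise
  obtain ⟨s, hs, hss⟩ : ∃ s : V → V → Equiv.Perm (Fin k),
      (∀ u v, u ≠ v → s v u = (s u v).symm) ∧
      ∀ u v, u ≠ v → ∀ i j, (e u i : ℕ) = (e v j : ℕ) → s u v i = j := by
    refine ⟨fun u v => if u < v then t u v else (t v u).symm, ?_, ?_⟩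
    · intro u v huv
      rcases lt_or_gt_of_ne huv with h1 | h1
      · simp only [h1, if_true, if_neg (not_lt_of_gt h1)]
      · simp only [h1, if_true, if_neg (not_lt_of_gt h1), Equiv.symm_symm]
    · intro u v huv i j hij
      rcases lt_or_gt_of_ne huv with h1 | h1
      · simp only [h1, if_true]
        exact ht u v i j hij
      · simp only [if_neg (not_lt_of_gt h1)]
        rw [Equiv.symm_apply_eq]
        exact (ht v u j i hij.symm).symm
  let H : SimpleGraph (V × Fin k) :=
    { Adj := fun a b => (a.1 = b.1 ∧ a.2 ≠ b.2) ∨ (G.Adj a.1 b.1 ∧ s a.1 b.1 a.2 = b.2)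
      symm := ⟨by
        rintro ⟨u, i⟩ ⟨v, j⟩ hab
        rcases hab with ⟨h1, h2⟩ | ⟨h1, h2⟩
        · exact Or.inl ⟨h1.symm, h2.symm⟩
        · refine Or.inr ⟨h1.symm, ?_⟩
          show s v u j = i
          rw [hs u v h1.ne, Equiv.symm_apply_eq]
          exact h2.symm⟩
      loopless := ⟨by
        rintro ⟨u, i⟩ hab
        rcases hab with ⟨h1, h2⟩ | ⟨h1, h2⟩
        · exact h2 rfl
        · exact G.irrefl h1⟩ }
  have hH : IsCover G k H := by
    refine ⟨?_, ?_, ?_⟩
    · intro v i j hij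
      exact Or.inl ⟨rfl, hij⟩
    · intro u v huv i
      refine ⟨s u v i, Or.inr ⟨huv, rfl⟩, ?_⟩
      rintro j (⟨h1, h2⟩ | ⟨h1, h2⟩)
      · exact absurd h1 huv.ne
      · exact h2.symm
    · rintro u v i j (⟨h1, h2⟩ | ⟨h1, h2⟩)
      · exact Or.inl h1
      · exact Or.inr h1
  obtain ⟨c, hc1, hc2⟩ := h H hH
  refine ⟨fun i v => (e v (c i v) : ℕ), fun i v => (e v (c i v)).2, ?_, ?_⟩
  · intro i u v huv heq
    exact hc2 i u v (Or.inr ⟨huv, hss u v huv.ne _ _ heq⟩)
  · intro i j v hij heq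
    exact hc1 v i j hij ((e v).injective (Subtype.ext heq))

end Pool.Agent.Lib.MP_6a62cd_co.Four
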