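import Mathlib
import Pool.Agent.Lib.MP_6a62cd_co.FourDefs

/-!
Local geometry of maximal plane straight-line graphs: two edges at a vertex that are consecutive
in the counterclockwise order, with an angle less than `π`, span an empty triangle.
-/

namespace Pool.Agent.Lib.MP_6a62cd_co.Four

/-! ### Affine maps -/

/-- `f` respects affine combinations of two points. -/
def IsAff (f : ℝ × ℝ → ℝ × ℝ) : Prop :=
  ∀ (p q : ℝ × ℝ) (t : ℝ), f ((1 - t) • p + t • q) = (1 - t) • f p + t • f q

theorem IsAff.mem_segment {f : ℝ × ℝ → ℝ × ℝ} (hf : IsAff f) {p a b : ℝ × ℝ}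
    (h : p ∈ segment ℝ a b) : f p ∈ segment ℝ (f a) (f b) := by
  rw [segment_eq_image] at h ⊢
  obtain ⟨t, ht, rfl⟩ := h
  exact ⟨t, ht, (hf a b t).symm⟩

theorem IsAff.exists_mem {f : ℝ × ℝ → ℝ × ℝ} (hf : IsAff f) {P a b : ℝ × ℝ}
    (h : P ∈ segment ℝ (f a) (f b)) : ∃ p ∈ segment ℝ a b, f p = P := by
  rw [segment_eq_image] at h
  obtain ⟨t, ht, rfl⟩ := h
  refine ⟨(1 - t) • a + t • b, ?_, hf a b t⟩
  rw [segment_eq_image]
  exact ⟨t, ht, rfl⟩

theorem IsAff.mem_segment_iff {f : ℝ × ℝ → ℝ × ℝ} (hf : IsAff f) (hi : Function.Injective f)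
    {p a b : ℝ × ℝ} : f p ∈ segment ℝ (f a) (f b) ↔ p ∈ segment ℝ a b := by
  constructor
  · intro h
    obtain ⟨q, hq, e⟩ := hf.exists_mem h
    rwa [← hi e]
  · exact hf.mem_segment

theorem IsAff.plane_iff {V : Type} {G : SimpleGraph V} {pos : V → ℝ × ℝ} {f : ℝ × ℝ → ℝ × ℝ}
    (hf : IsAff f) (hi : Function.Injective f) :
    IsPlaneDrawing G (fun v => f (pos v)) ↔ IsPlaneDrawing G pos := by
  constructor
  · rintro ⟨h1, h2, h3⟩
    refine ⟨fun a b e => h1 (by simp only [e]), ?_, ?_⟩
    · intro u v w h hu hv hm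
      exact h2 u v w h hu hv (hf.mem_segment hm)
    · intro u v x y h h' hne p hp hp'
      rcases h3 u v x y h h' hne (f p) (hf.mem_segment hp) (hf.mem_segment hp') with e | e
      · exact Or.inl (hi e)
      · exact Or.inr (hi e)
  · rintro ⟨h1, h2, h3⟩
    refine ⟨fun a b e => h1 (hi e), ?_, ?_⟩
    · intro u v w h hu hv hm
      exact h2 u v w h hu hv ((hf.mem_segment_iff hi).1 hm)
    · intro u v x y h h' hne P hP hP'
      obtain ⟨p, hp, rfl⟩ := hf.exists_mem hP
      have hp' := (hf.mem_segment_iff hi).1 hP'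
      rcases h3 u v x y h h' hne p hp hp' with e | e
      · exact Or.inl (by simp only [e])
      · exact Or.inr (by simp only [e])

/-! ### Adding an edge -/

theorem IsPlaneDrawing.add_edge {V : Type} {T : SimpleGraph V} {pos : V → ℝ × ℝ}
    (hT : IsPlaneDrawing T pos) {v z : V}
    (h1 : ∀ c, c ≠ v → c ≠ z → pos c ∉ segment ℝ (pos v) (pos z))
    (h2 : ∀ a b, T.Adj a b → ∀ p ∈ segment ℝ (pos a) (pos b),
      p ∈ segment ℝ (pos v) (pos z) → s(a, b) ≠ s(v, z) → p = pos v ∨ p = pos z) :
    IsPlaneDrawing (T ⊔ SimpleGraph.edge v z) pos := by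
  obtain ⟨i1, i2, i3⟩ := hT
  have key : ∀ a b, T.Adj a b → ∀ p ∈ segment ℝ (pos a) (pos b),
      p ∈ segment ℝ (pos v) (pos z) → s(a, b) ≠ s(v, z) → p = pos a ∨ p = pos b := by
    intro a b hab p hp hp' hne
    rcases h2 a b hab p hp hp' hne with rfl | rfl
    · by_contra hcon
      push Not at hcon
      exact i2 a b v hab (fun h => hcon.1 (by rw [h])) (fun h => hcon.2 (by rw [h])) hp
    · by_contra hcon
      push Not at hcon
      exact i2 a b z hab (fun h => hcon.1 (by rw [h])) (fun h => hcon.2 (by rw [h])) hp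
  have hedge : ∀ a b, (SimpleGraph.edge v z).Adj a b → (a = v ∧ b = z) ∨ (a = z ∧ b = v) := by
    intro a b h
    rw [SimpleGraph.edge_adj] at h
    exact h.1
  refine ⟨i1, ?_, ?_⟩
  · intro a b c h hca hcb
    rcases h with h | h
    · exact i2 a b c h hca hcb
    · rcases hedge a b h with ⟨rfl, rfl⟩ | ⟨rfl, rfl⟩
      · exact h1 c hca hcb
      · rw [segment_symm]
        exact h1 c hcb hca
  · intro a b x y h h' hne p hp hp'
    rcases h with h | h <;> rcases h' with h' | h'
    · exact i3 a b x y h h' hne p hp hp'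
    · rcases hedge x y h' with ⟨rfl, rfl⟩ | ⟨rfl, rfl⟩
      · exact key a b h p hp hp' hne
      · rw [segment_symm] at hp'
        exact key a b h p hp hp' (fun e => hne (by rw [e, Sym2.eq_swap]))
    · rcases hedge a b h with ⟨rfl, rfl⟩ | ⟨rfl, rfl⟩
      · exact h2 x y h' p hp' hp (fun e => hne e.symm)
      · rw [segment_symm] at hp
        exact (h2 x y h' p hp' hp (fun e => hne (by rw [e, Sym2.eq_swap]))).symm
    · exfalso
      apply hne
      rcases hedge a b h with ⟨rfl, rfl⟩ | ⟨rfl, rfl⟩ <;>
        rcases hedge x y h' with ⟨rfl, rfl⟩ | ⟨rfl, rfl⟩ <;> simp [Sym2.eq_swap]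

/-! ### Standard position -/

section std

variable {V : Type} {T : SimpleGraph V} {pos : V → ℝ × ℝ} {v u w : V}

theorem mem_seg_iff {p a b : ℝ × ℝ} :
    p ∈ segment ℝ a b ↔ ∃ t : ℝ, 0 ≤ t ∧ t ≤ 1 ∧ p.1 = (1 - t) * a.1 + t * b.1 ∧
      p.2 = (1 - t) * a.2 + t * b.2 := by
  rw [segment_eq_image]
  constructor
  · rintro ⟨t, ht, rfl⟩
    exact ⟨t, ht.1, ht.2, by simp, by simp⟩
  · rintro ⟨t, h0, h1, e1, e2⟩
    exact ⟨t, ⟨h0, h1⟩, by ext <;> simp [e1, e2]⟩

/-- an edge that passes through the open cone below the line `x + y = 1` cannot leave the cone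
when `x + y` does not increase -/
theorem cone (hT : IsPlaneDrawing T pos) (hu : T.Adj v u) (hw : T.Adj v w)
    (pv : pos v = (0, 0)) (pu : pos u = (1, 0)) (pw : pos w = (0, 1))
    {a b : V} (hab : T.Adj a b) {q : ℝ × ℝ} (hq : q ∈ segment ℝ (pos a) (pos b))
    (q1 : 0 < q.1) (q2 : 0 < q.2) (qs : q.1 + q.2 ≤ 1)
    (hb : (pos b).1 + (pos b).2 ≤ q.1 + q.2) : 0 ≤ (pos b).1 ∧ 0 ≤ (pos b).2 := by
  obtain ⟨i1, i2, i3⟩ := hT
  obtain ⟨l, l0, l1, e1, e2⟩ := mem_seg_iff.1 hq
  have hane : pos a ≠ pos b := fun h => hab.ne (i1 h)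
  -- crossing the line `x = 0`
  have caseA : (pos b).1 < 0 → q.2 * (pos b).1 ≤ q.1 * (pos b).2 → False := by
    intro hx hxy
    have hd : 0 < q.1 - (pos b).1 := by linarith
    set t := q.1 / (q.1 - (pos b).1) with ht
    have t0 : 0 < t := div_pos q1 hd
    have t1 : t < 1 := by rw [ht, div_lt_one hd]; linarith
    have ht' : t * (q.1 - (pos b).1) = q.1 := div_mul_cancel₀ _ hd.ne'
    set p : ℝ × ℝ := ((1 - t) * q.1 + t * (pos b).1, (1 - t) * q.2 + t * (pos b).2) with hp
    have hp1 : p.1 = 0 := by simp only [hp]; linarith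
    have hp2 : 0 ≤ p.2 := by
      have : p.2 * (q.1 - (pos b).1) = q.1 * (pos b).2 - q.2 * (pos b).1 := by
        simp only [hp]
        have : t * (q.1 - (pos b).1) = q.1 := ht'
        linear_combination ((pos b).2 - q.2) * this
      by_contra hneg
      push Not at hneg
      nlinarith [mul_neg_of_neg_of_pos hneg hd]
    have hp3 : p.2 ≤ 1 := by
      have : p.1 + p.2 ≤ q.1 + q.2 := by
        simp only [hp]
        nlinarith
      rw [hp1] at this
      linarith
    have hpseg : p ∈ segment ℝ (pos v) (pos w) := by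
      rw [pv, pw, mem_seg_iff]
      exact ⟨p.2, hp2, hp3, by simp [hp1], by simp⟩
    have hpab : p ∈ segment ℝ (pos a) (pos b) := by
      rw [mem_seg_iff]
      refine ⟨l + t * (1 - l), by nlinarith, by nlinarith, ?_, ?_⟩
      · simp only [hp, e1]; ring
      · simp only [hp, e2]; ring
    have hne : s(a, b) ≠ s(v, w) := by
      intro h
      have hq' : q ∈ segment ℝ (pos v) (pos w) := by
        rcases Sym2.eq_iff.1 h with ⟨rfl, rfl⟩ | ⟨rfl, rfl⟩
        · exact hq
        · rwa [segment_symm]
      rw [pv, pw, mem_seg_iff] at hq'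
      obtain ⟨t', -, -, e, -⟩ := hq'
      simp at e
      linarith
    rcases i3 a b v w hab hw hne p hpab hpseg with h | h
    · have ha1 : (1 - (l + t * (1 - l))) * (pos a).1 + (l + t * (1 - l)) * (pos b).1 =
          (pos a).1 := by
        have h1 := congrArg Prod.fst h
        simp only [hp] at h1
        linear_combination h1 - (1 - t) * e1
      have ha2 : (1 - (l + t * (1 - l))) * (pos a).2 + (l + t * (1 - l)) * (pos b).2 =
          (pos a).2 := by
        have h1 := congrArg Prod.snd h
        simp only [hp] at h1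
        linear_combination h1 - (1 - t) * e2
      have hpos : 0 < l + t * (1 - l) := by
        rcases l0.lt_or_eq with hl | hl
        · nlinarith
        · rw [← hl]; simpa using t0
      apply hane
      ext
      · have : (l + t * (1 - l)) * ((pos b).1 - (pos a).1) = 0 := by linarith
        rcases mul_eq_zero.1 this with h | h
        · exact absurd h hpos.ne'
        · linarith
      · have : (l + t * (1 - l)) * ((pos b).2 - (pos a).2) = 0 := by linarith
        rcases mul_eq_zero.1 this with h | h
        · exact absurd h hpos.ne'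
        · linarith
    · rw [← h, hp1] at hx
      exact lt_irrefl _ hx
  -- crossing the line `y = 0`
  have caseB : (pos b).2 < 0 → q.1 * (pos b).2 ≤ q.2 * (pos b).1 → False := by
    intro hx hxy
    have hd : 0 < q.2 - (pos b).2 := by linarith
    set t := q.2 / (q.2 - (pos b).2) with ht
    have t0 : 0 < t := div_pos q2 hd
    have t1 : t < 1 := by rw [ht, div_lt_one hd]; linarith
    have ht' : t * (q.2 - (pos b).2) = q.2 := div_mul_cancel₀ _ hd.ne'
    set p : ℝ × ℝ := ((1 - t) * q.1 + t * (pos b).1, (1 - t) * q.2 + t * (pos b).2) with hp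
    have hp1 : p.2 = 0 := by simp only [hp]; linarith
    have hp2 : 0 ≤ p.1 := by
      have : p.1 * (q.2 - (pos b).2) = q.2 * (pos b).1 - q.1 * (pos b).2 := by
        simp only [hp]
        have : t * (q.2 - (pos b).2) = q.2 := ht'
        linear_combination ((pos b).1 - q.1) * this
      by_contra hneg
      push Not at hneg
      nlinarith [mul_neg_of_neg_of_pos hneg hd]
    have hp3 : p.1 ≤ 1 := by
      have : p.1 + p.2 ≤ q.1 + q.2 := by
        simp only [hp]
        nlinarith
      rw [hp1] at this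
      linarith
    have hpseg : p ∈ segment ℝ (pos v) (pos u) := by
      rw [pv, pu, mem_seg_iff]
      exact ⟨p.1, hp2, hp3, by simp, by simp [hp1]⟩
    have hpab : p ∈ segment ℝ (pos a) (pos b) := by
      rw [mem_seg_iff]
      refine ⟨l + t * (1 - l), by nlinarith, by nlinarith, ?_, ?_⟩
      · simp only [hp, e1]; ring
      · simp only [hp, e2]; ring
    have hne : s(a, b) ≠ s(v, u) := by
      intro h
      have hq' : q ∈ segment ℝ (pos v) (pos u) := by
        rcases Sym2.eq_iff.1 h with ⟨rfl, rfl⟩ | ⟨rfl, rfl⟩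
        · exact hq
        · rwa [segment_symm]
      rw [pv, pu, mem_seg_iff] at hq'
      obtain ⟨t', -, -, -, e⟩ := hq'
      simp at e
      linarith
    rcases i3 a b v u hab hu hne p hpab hpseg with h | h
    · have ha1 : (1 - (l + t * (1 - l))) * (pos a).1 + (l + t * (1 - l)) * (pos b).1 =
          (pos a).1 := by
        have h1 := congrArg Prod.fst h
        simp only [hp] at h1
        linear_combination h1 - (1 - t) * e1
      have ha2 : (1 - (l + t * (1 - l))) * (pos a).2 + (l + t * (1 - l)) * (pos b).2 =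
          (pos a).2 := by
        have h1 := congrArg Prod.snd h
        simp only [hp] at h1
        linear_combination h1 - (1 - t) * e2
      have hpos : 0 < l + t * (1 - l) := by
        rcases l0.lt_or_eq with hl | hl
        · nlinarith
        · rw [← hl]; simpa using t0
      apply hane
      ext
      · have : (l + t * (1 - l)) * ((pos b).1 - (pos a).1) = 0 := by linarith
        rcases mul_eq_zero.1 this with h | h
        · exact absurd h hpos.ne'
        · linarith
      · have : (l + t * (1 - l)) * ((pos b).2 - (pos a).2) = 0 := by linarith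
        rcases mul_eq_zero.1 this with h | h
        · exact absurd h hpos.ne'
        · linarith
    · rw [← h, hp1] at hx
      exact lt_irrefl _ hx
  rcases lt_or_ge (pos b).1 0 with hx | hx
  · exfalso
    rcases le_or_gt (q.2 * (pos b).1) (q.1 * (pos b).2) with h | h
    · exact caseA hx h
    · refine caseB ?_ h.le
      by_contra hy
      push Not at hy
      have h1 : q.2 * (pos b).1 < 0 := mul_neg_of_pos_of_neg q2 hx
      have h2 : 0 ≤ q.1 * (pos b).2 := mul_nonneg q1.le hy
      linarith
  · refine ⟨hx, ?_⟩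
    by_contra hy
    push Not at hy
    have h1 : q.1 * (pos b).2 < 0 := mul_neg_of_pos_of_neg q1 hy
    have h2 : 0 ≤ q.2 * (pos b).1 := mul_nonneg q2.le hx
    exact caseB hy (by linarith)

/-- one of the two ends of a segment has `x + y` at most the value at a given point -/
theorem exists_low {T : SimpleGraph V} {pos : V → ℝ × ℝ} {a b : V} (hab : T.Adj a b)
    {q : ℝ × ℝ} (hq : q ∈ segment ℝ (pos a) (pos b)) :
    ∃ a' b', T.Adj a' b' ∧ q ∈ segment ℝ (pos a') (pos b') ∧
      (pos b').1 + (pos b').2 ≤ q.1 + q.2 ∧ s(a', b') = s(a, b) := by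
  obtain ⟨l, l0, l1, e1, e2⟩ := mem_seg_iff.1 hq
  by_cases h : (pos b).1 + (pos b).2 ≤ q.1 + q.2
  · exact ⟨a, b, hab, hq, h, rfl⟩
  · refine ⟨b, a, hab.symm, ?_, ?_, Sym2.eq_swap⟩
    · rwa [segment_symm]
    · by_contra h'
      push Not at h h'
      have : q.1 + q.2 = (1 - l) * ((pos a).1 + (pos a).2) + l * ((pos b).1 + (pos b).2) := by
        rw [e1, e2]; ring
      rcases l0.lt_or_eq with hl | hl
      · nlinarith
      · rw [← hl] at this; linarith

/-- no neighbour of `v` lies in the open quadrant, seen through a point of the open quadrant -/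
theorem no_ray (pv : pos v = (0, 0))
    (hcons : ∀ z, T.Adj v z → ¬ (0 < (pos z).2 ∧ 0 < (pos z).1))
    {a : V} (hav : T.Adj a v) {q : ℝ × ℝ} (hq : q ∈ segment ℝ (pos a) (pos v))
    (q1 : 0 < q.1) (q2 : 0 < q.2) : False := by
  obtain ⟨l, l0, l1, e1, e2⟩ := mem_seg_iff.1 hq
  rw [pv] at e1 e2
  simp only [mul_zero, add_zero] at e1 e2
  have hl : 0 < 1 - l := by
    rcases (sub_nonneg.2 l1).lt_or_eq with h | h
    · exact h
    · rw [← h, zero_mul] at e1; linarith
  refine hcons a hav.symm ⟨?_, ?_⟩
  · rw [e2] at q2; exact (pos_iff_pos_of_mul_pos q2).1 hl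
  · rw [e1] at q1; exact (pos_iff_pos_of_mul_pos q1).1 hl

/-- the triangle is empty -/
theorem empty_std [Finite V] (hT : IsPlaneDrawing T pos)
    (hmax : ∀ T' : SimpleGraph V, T ≤ T' → IsPlaneDrawing T' pos → T' ≤ T)
    (hu : T.Adj v u) (hw : T.Adj v w)
    (pv : pos v = (0, 0)) (pu : pos u = (1, 0)) (pw : pos w = (0, 1))
    (hcons : ∀ z, T.Adj v z → ¬ (0 < (pos z).2 ∧ 0 < (pos z).1)) :
    ∀ z, 0 ≤ (pos z).1 → 0 ≤ (pos z).2 → (pos z).1 + (pos z).2 ≤ 1 → z = v ∨ z = u ∨ z = w := by
  classical
  cases nonempty_fintype V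
  by_contra hcon
  push Not at hcon
  obtain ⟨z0, hz0⟩ := hcon
  set Z : Finset V := Finset.univ.filter fun z =>
    0 ≤ (pos z).1 ∧ 0 ≤ (pos z).2 ∧ (pos z).1 + (pos z).2 ≤ 1 ∧ z ≠ v ∧ z ≠ u ∧ z ≠ w with hZ
  have hZne : Z.Nonempty := ⟨z0, by simp only [hZ, Finset.mem_filter, Finset.mem_univ, true_and]; exact hz0⟩
  obtain ⟨z, hzZ, hzmin⟩ := Z.exists_min_image (fun z => (pos z).1 + (pos z).2) hZne
  have hzZ' := hzZ
  simp only [hZ, Finset.mem_filter, Finset.mem_univ, true_and] at hzZ'
  obtain ⟨zx, zy, zs, zv, zu, zw⟩ := hzZ'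
  have hmin : ∀ c, 0 ≤ (pos c).1 → 0 ≤ (pos c).2 → (pos c).1 + (pos c).2 < (pos z).1 + (pos z).2 →
      c = v ∨ c = u ∨ c = w := by
    intro c h1 h2 h3
    by_contra hc
    push Not at hc
    have := hzmin c (by
      simp only [hZ, Finset.mem_filter, Finset.mem_univ, true_and]
      exact ⟨h1, h2, by linarith, hc.1, hc.2.1, hc.2.2⟩)
    linarith
  have i2 := hT.2.1
  -- `z` is in the open quadrant
  have zx' : 0 < (pos z).1 := by
    rcases zx.lt_or_eq with h | h
    · exact h
    · exfalso
      refine i2 v w z hw zv zw ?_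
      rw [pv, pw, mem_seg_iff]
      exact ⟨(pos z).2, zy, by linarith, by simp [← h], by simp⟩
  have zy' : 0 < (pos z).2 := by
    rcases zy.lt_or_eq with h | h
    · exact h
    · exfalso
      refine i2 v u z hu zv zu ?_
      rw [pv, pu, mem_seg_iff]
      exact ⟨(pos z).1, zx, by linarith, by simp, by simp [← h]⟩
  have hnot : ¬ T.Adj v z := fun h => hcons z h ⟨zy', zx'⟩
  -- the segment `v z` can be added
  have hadd : IsPlaneDrawing (T ⊔ SimpleGraph.edge v z) pos := by
    refine hT.add_edge ?_ ?_
    · intro c hcv hcz hc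
      rw [pv, mem_seg_iff] at hc
      obtain ⟨t, t0, t1, e1, e2⟩ := hc
      simp only [mul_zero, zero_add] at e1 e2
      have ht0 : 0 < t := by
        rcases t0.lt_or_eq with h | h
        · exact h
        · exfalso
          rw [← h, zero_mul] at e1 e2
          exact hcv (hT.1 (by rw [pv]; ext <;> simp [e1, e2]))
      have ht1 : t < 1 := by
        rcases t1.lt_or_eq with h | h
        · exact h
        · exfalso
          rw [h, one_mul] at e1 e2
          exact hcz (hT.1 (by ext <;> simp [e1, e2]))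
      have c1 : 0 < (pos c).1 := by rw [e1]; exact mul_pos ht0 zx'
      have c2 : 0 < (pos c).2 := by rw [e2]; exact mul_pos ht0 zy'
      rcases hmin c c1.le c2.le (by rw [e1, e2]; nlinarith) with rfl | rfl | rfl
      · exact hcv rfl
      · rw [pu] at c2; simp at c2
      · rw [pw] at c1; simp at c1
    · intro a b hab q hq hq' hne
      rw [pv, mem_seg_iff] at hq'
      obtain ⟨t, t0, t1, e1, e2⟩ := hq'
      simp only [mul_zero, zero_add] at e1 e2
      rcases t0.lt_or_eq with ht0 | ht0
      swap
      · left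
        rw [← ht0, zero_mul] at e1 e2
        rw [pv]; ext <;> simp [e1, e2]
      rcases t1.lt_or_eq with ht1 | ht1
      swap
      · right
        rw [ht1, one_mul] at e1 e2
        ext <;> simp [e1, e2]
      exfalso
      have q1 : 0 < q.1 := by rw [e1]; exact mul_pos ht0 zx'
      have q2 : 0 < q.2 := by rw [e2]; exact mul_pos ht0 zy'
      have qs : q.1 + q.2 < (pos z).1 + (pos z).2 := by rw [e1, e2]; nlinarith
      obtain ⟨a', b', hab', hqab, hlow, -⟩ := exists_low hab hq
      obtain ⟨b1, b2⟩ := cone hT hu hw pv pu pw hab' hqab q1 q2 (by linarith) hlow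
      rcases hmin b' b1 b2 (by linarith) with rfl | rfl | rfl
      · exact no_ray pv hcons hab' hqab q1 q2
      · rw [pu] at hlow; simp at hlow; linarith
      · rw [pw] at hlow; simp at hlow; linarith
  have := hmax _ le_sup_left hadd
  apply hnot
  apply this
  right
  rw [SimpleGraph.edge_adj]
  exact ⟨Or.inl ⟨rfl, rfl⟩, zv.symm⟩

/-- the third side of the triangle is an edge -/
theorem third_std (hT : IsPlaneDrawing T pos)
    (hmax : ∀ T' : SimpleGraph V, T ≤ T' → IsPlaneDrawing T' pos → T' ≤ T)
    (hu : T.Adj v u) (hw : T.Adj v w)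
    (pv : pos v = (0, 0)) (pu : pos u = (1, 0)) (pw : pos w = (0, 1))
    (hcons : ∀ z, T.Adj v z → ¬ (0 < (pos z).2 ∧ 0 < (pos z).1))
    (hemp : ∀ z, 0 ≤ (pos z).1 → 0 ≤ (pos z).2 → (pos z).1 + (pos z).2 ≤ 1 →
      z = v ∨ z = u ∨ z = w) : T.Adj u w := by
  have huw : u ≠ w := by
    rintro rfl
    rw [pu] at pw
    simp at pw
  by_contra hnot
  have i2 := hT.2.1
  have hadd : IsPlaneDrawing (T ⊔ SimpleGraph.edge u w) pos := by
    refine hT.add_edge ?_ ?_
    · intro c hcu hcw hc
      rw [pu, pw, mem_seg_iff] at hc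
      obtain ⟨t, t0, t1, e1, e2⟩ := hc
      simp only [mul_one, mul_zero, add_zero, zero_add] at e1 e2
      rcases hemp c (by linarith) (by linarith) (by linarith) with rfl | rfl | rfl
      · rw [pv] at e1 e2; simp at e1 e2; linarith
      · exact hcu rfl
      · exact hcw rfl
    · intro a b hab q hq hq' hne
      rw [pu, pw, mem_seg_iff] at hq'
      obtain ⟨t, t0, t1, e1, e2⟩ := hq'
      simp only [mul_one, mul_zero, add_zero, zero_add] at e1 e2
      rcases t0.lt_or_eq with ht0 | ht0
      swap
      · left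
        rw [pu]; ext
        · simp only [e1]; linarith
        · simp only [e2]; linarith
      rcases t1.lt_or_eq with ht1 | ht1
      swap
      · right
        rw [pw]; ext
        · simp only [e1]; linarith
        · simp only [e2]; linarith
      exfalso
      have q1 : 0 < q.1 := by rw [e1]; linarith
      have q2 : 0 < q.2 := by rw [e2]; linarith
      have qs : q.1 + q.2 = 1 := by rw [e1, e2]; ring
      obtain ⟨a', b', hab', hqab, hlow, hs⟩ := exists_low hab hq
      obtain ⟨b1, b2⟩ := cone hT hu hw pv pu pw hab' hqab q1 q2 qs.le hlow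
      obtain ⟨l, l0, l1, f1, f2⟩ := mem_seg_iff.1 hqab
      have hl1 : 0 < 1 - l := by
        rcases (sub_nonneg.2 l1).lt_or_eq with h | h
        · exact h
        · exfalso
          have hl : l = 1 := by linarith
          rw [hl] at f1 f2
          have : q = pos b' := by ext <;> simp [f1, f2]
          rcases hemp b' b1 b2 (by linarith) with rfl | rfl | rfl
          · rw [this, pv] at q1; simp at q1
          · rw [this, pu] at q2; simp at q2
          · rw [this, pw] at q1; simp at q1
      rcases hemp b' b1 b2 (by linarith) with rfl | rfl | rfl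
      · exact no_ray pv hcons hab' hqab q1 q2
      · -- `b' = u`
        rw [pu] at f1 f2
        simp only [mul_one, mul_zero, add_zero] at f1 f2
        -- `a' = (1 - τ, τ)` with `τ = t / (1 - l)`
        have a2 : (1 - l) * (pos a').2 = t := by rw [← f2, e2]
        have a1 : (1 - l) * (pos a').1 = 1 - t - l := by linarith
        have as : (pos a').1 + (pos a').2 = 1 := by
          have : (1 - l) * ((pos a').1 + (pos a').2) = (1 - l) * 1 := by linarith
          exact mul_left_cancel₀ hl1.ne' this
        have a2p : 0 < (pos a').2 := by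
          have : 0 < (1 - l) * (pos a').2 := by rw [a2]; exact ht0
          exact (pos_iff_pos_of_mul_pos this).1 hl1
        rcases le_or_gt (pos a').2 1 with h | h
        · rcases hemp a' (by linarith) a2p.le as.le with rfl | rfl | rfl
          · rw [pv] at as; simp at as
          · rw [pu] at a2p; simp at a2p
          · exact hnot hab'.symm
        · refine i2 a' b' w hab' ?_ ?_ ?_
          · rintro rfl; rw [pw] at h; simp at h
          · exact huw.symm
          · rw [pu, pw, mem_seg_iff]
            refine ⟨1 - 1 / (pos a').2, ?_, ?_, ?_, ?_⟩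
            · rw [sub_nonneg, div_le_one (by linarith)]; exact h.le
            · have : 0 < 1 / (pos a').2 := by positivity
              linarith
            · have e : (pos a').1 = 1 - (pos a').2 := by linarith
              rw [e]; field_simp; ring
            · field_simp; ring
      · -- `b' = w`
        rw [pw] at f1 f2
        simp only [mul_one, mul_zero, add_zero] at f1 f2
        have a1 : (1 - l) * (pos a').1 = 1 - t := by rw [← f1, e1]
        have a2 : (1 - l) * (pos a').2 = t - l := by linarith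
        have as : (pos a').1 + (pos a').2 = 1 := by
          have : (1 - l) * ((pos a').1 + (pos a').2) = (1 - l) * 1 := by linarith
          exact mul_left_cancel₀ hl1.ne' this
        have a1p : 0 < (pos a').1 := by
          have : 0 < (1 - l) * (pos a').1 := by rw [a1]; linarith
          exact (pos_iff_pos_of_mul_pos this).1 hl1
        rcases le_or_gt (pos a').1 1 with h | h
        · rcases hemp a' a1p.le (by linarith) as.le with rfl | rfl | rfl
          · rw [pv] at as; simp at as
          · exact hnot hab'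
          · rw [pw] at a1p; simp at a1p
        · refine i2 a' b' u hab' ?_ ?_ ?_
          · rintro rfl; rw [pu] at h; simp at h
          · exact huw
          · rw [pu, pw, mem_seg_iff]
            refine ⟨1 - 1 / (pos a').1, ?_, ?_, ?_, ?_⟩
            · rw [sub_nonneg, div_le_one (by linarith)]; exact h.le
            · have : 0 < 1 / (pos a').1 := by positivity
              linarith
            · field_simp; ring
            · have e : (pos a').2 = 1 - (pos a').1 := by linarith
              rw [e]; field_simp; ring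
  have := hmax _ le_sup_left hadd
  apply hnot
  apply this
  right
  rw [SimpleGraph.edge_adj]
  exact ⟨Or.inl ⟨rfl, rfl⟩, huw⟩

/-- no edge at `u` enters the triangle -/
theorem next_std (hT : IsPlaneDrawing T pos) (hu : T.Adj v u) (hw : T.Adj v w)
    (pv : pos v = (0, 0)) (pu : pos u = (1, 0)) (pw : pos w = (0, 1))
    (hemp : ∀ z, 0 ≤ (pos z).1 → 0 ≤ (pos z).2 → (pos z).1 + (pos z).2 ≤ 1 →
      z = v ∨ z = u ∨ z = w) {z : V} (hz : T.Adj u z) (z1 : (pos z).1 + (pos z).2 < 1)
    (z2 : 0 < (pos z).2) : False := by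
  have huw : u ≠ w := by
    rintro rfl
    rw [pu] at pw
    simp at pw
  rcases le_or_gt 0 (pos z).1 with h | h
  · rcases hemp z h z2.le z1.le with rfl | rfl | rfl
    · rw [pv] at z2; simp at z2
    · exact hz.ne rfl
    · rw [pw] at z1; simp at z1
  · have hd : 0 < 1 - (pos z).1 := by linarith
    set t := 1 / (1 - (pos z).1) with ht
    have t0 : 0 < t := by positivity
    have t1 : t < 1 := by rw [ht, div_lt_one hd]; linarith
    have ht' : t * (1 - (pos z).1) = 1 := div_mul_cancel₀ _ hd.ne'
    have hseg : ((0 : ℝ), t * (pos z).2) ∈ segment ℝ (pos u) (pos z) := by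
      rw [pu, mem_seg_iff]
      refine ⟨t, t0.le, t1.le, ?_, ?_⟩
      · simp only [mul_one]; linarith
      · simp
    have hseg' : ((0 : ℝ), t * (pos z).2) ∈ segment ℝ (pos v) (pos w) := by
      rw [pv, pw, mem_seg_iff]
      refine ⟨t * (pos z).2, by positivity, ?_, by simp, by simp⟩
      have : t * (pos z).2 ≤ t * (1 - (pos z).1) := mul_le_mul_of_nonneg_left (by linarith) t0.le
      linarith
    have hne : s(u, z) ≠ s(v, w) := by
      intro e
      rcases Sym2.eq_iff.1 e with ⟨h1, -⟩ | ⟨h1, -⟩
      · exact hu.ne h1.symm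
      · exact huw h1
    rcases hT.2.2 u z v w hz hw hne _ hseg hseg' with e | e
    · rw [pu] at e; simp at e
    · have := congrArg Prod.fst e
      simp at this
      rw [← this] at h
      exact lt_irrefl _ h

end std

/-! ### General position -/

/-- coordinates in which the triangle is `(0, 0), (1, 0), (0, 1)` -/
noncomputable def stdMap (v u w : ℝ × ℝ) (z : ℝ × ℝ) : ℝ × ℝ :=
  (cr v z w / cr v u w, cr v u z / cr v u w)

theorem stdMap_aff (v u w : ℝ × ℝ) : IsAff (stdMap v u w) := by
  intro p q t
  ext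
  · simp only [stdMap, cr, Prod.fst_add, Prod.snd_add, Prod.smul_fst, Prod.smul_snd, smul_eq_mul]
    ring
  · simp only [stdMap, cr, Prod.fst_add, Prod.snd_add, Prod.smul_fst, Prod.smul_snd, smul_eq_mul]
    ring

theorem stdMap_inj {v u w : ℝ × ℝ} (h : 0 < cr v u w) : Function.Injective (stdMap v u w) := by
  intro p q e
  have e1 : cr v p w = cr v q w := by
    have := congrArg Prod.fst e
    simp only [stdMap] at this
    exact (div_left_inj' h.ne').1 this
  have e2 : cr v u p = cr v u q := by
    have := congrArg Prod.snd e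
    simp only [stdMap] at this
    exact (div_left_inj' h.ne').1 this
  simp only [cr] at e1 e2 h
  ext
  · have : ((u.1 - v.1) * (w.2 - v.2) - (u.2 - v.2) * (w.1 - v.1)) * (p.1 - q.1) = 0 := by
      linear_combination (u.1 - v.1) * e1 + (w.1 - v.1) * e2
    rcases mul_eq_zero.1 this with h' | h'
    · exact absurd h' h.ne'
    · linarith
  · have : ((u.1 - v.1) * (w.2 - v.2) - (u.2 - v.2) * (w.1 - v.1)) * (p.2 - q.2) = 0 := by
      linear_combination (u.2 - v.2) * e1 + (w.2 - v.2) * e2
    rcases mul_eq_zero.1 this with h' | h'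
    · exact absurd h' h.ne'
    · linarith

theorem corner_closed {V : Type} {T : SimpleGraph V} {pos : V → ℝ × ℝ} [Finite V]
    (hT : IsPlaneDrawing T pos)
    (hmax : ∀ T' : SimpleGraph V, T ≤ T' → IsPlaneDrawing T' pos → T' ≤ T)
    {v u w : V} (hu : T.Adj v u) (hw : T.Adj v w) (hc : 0 < cr (pos v) (pos u) (pos w))
    (hcons : ∀ z, T.Adj v z →
      ¬ (0 < cr (pos v) (pos u) (pos z) ∧ 0 < cr (pos v) (pos z) (pos w))) :
    T.Adj u w ∧ ∀ z, T.Adj u z →
      ¬ (0 < cr (pos u) (pos w) (pos z) ∧ 0 < cr (pos u) (pos z) (pos v)) := by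
  set f := stdMap (pos v) (pos u) (pos w) with hf
  have hfa : IsAff f := stdMap_aff _ _ _
  have hfi : Function.Injective f := stdMap_inj hc
  set pos' : V → ℝ × ℝ := fun z => f (pos z) with hpos'
  have hT' : IsPlaneDrawing T pos' := (hfa.plane_iff hfi).2 hT
  have hmax' : ∀ T' : SimpleGraph V, T ≤ T' → IsPlaneDrawing T' pos' → T' ≤ T := fun T' h h' =>
    hmax T' h ((hfa.plane_iff hfi).1 h')
  have pv : pos' v = (0, 0) := by
    simp only [hpos', hf, stdMap, cr]; ext <;> simp
  have pu : pos' u = (1, 0) := by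
    simp only [hpos', hf, stdMap]; ext
    · simp only; exact div_self hc.ne'
    · simp only [cr]; rw [div_eq_zero_iff]; left; ring
  have pw : pos' w = (0, 1) := by
    simp only [hpos', hf, stdMap]; ext
    · simp only [cr]; rw [div_eq_zero_iff]; left; ring
    · simp only; exact div_self hc.ne'
  have hcons' : ∀ z, T.Adj v z → ¬ (0 < (pos' z).2 ∧ 0 < (pos' z).1) := by
    rintro z hz ⟨h2, h1⟩
    simp only [hpos', hf, stdMap] at h1 h2
    refine hcons z hz ⟨?_, ?_⟩
    · exact (div_pos_iff_of_pos_right hc).1 h2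
    · exact (div_pos_iff_of_pos_right hc).1 h1
  have hemp := empty_std hT' hmax' hu hw pv pu pw hcons'
  refine ⟨third_std hT' hmax' hu hw pv pu pw hcons' hemp, ?_⟩
  rintro z hz ⟨h1, h2⟩
  refine next_std hT' hu hw pv pu pw hemp hz ?_ ?_
  · simp only [hpos', hf, stdMap]
    rw [← add_div, div_lt_one hc]
    simp only [cr] at h1 ⊢
    linarith
  · simp only [hpos', hf, stdMap]
    refine div_pos ?_ hc
    simp only [cr] at h2 ⊢
    linarith

end Pool.Agent.Lib.MP_6a62cd_co.Four
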