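import Pool.Agent.Lib.MP_6a62cd_co.FourDefs

/-!
Piece E of MP_6a62cd_co: counting corners of a plane graph all of whose convex corners are closed.
-/

namespace Pool.Agent.Lib.MP_6a62cd_co.Four

namespace CountE

theorem cr_cyc (p q r : ℝ × ℝ) : cr q r p = cr p q r := by unfold cr; ring

theorem cr_swap (p q r : ℝ × ℝ) : cr p r q = - cr p q r := by unfold cr; ring

theorem cr_id (p u w z : ℝ × ℝ) :
    (z.1 - p.1) * cr p u w + (u.1 - p.1) * cr p w z + (w.1 - p.1) * cr p z u = 0 := by
  unfold cr; ring

theorem cr_dot (p u w z : ℝ × ℝ) :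
    ((u.1 - p.1) * (z.1 - p.1) + (u.2 - p.2) * (z.2 - p.2)) * cr p u w -
      ((u.1 - p.1) * (w.1 - p.1) + (u.2 - p.2) * (w.2 - p.2)) * cr p u z =
      ((u.1 - p.1) ^ 2 + (u.2 - p.2) ^ 2) * cr p z w := by
  unfold cr; ring

variable {V : Type} {T : SimpleGraph V} {pos : V → ℝ × ℝ}

theorem x_ne (hx : Function.Injective fun v => (pos v).1) {u v : V} (h : u ≠ v) :
    (pos u).1 - (pos v).1 ≠ 0 := fun h0 => h (hx (sub_eq_zero.1 h0))

/-- two neighbours on a line through `v` are on different sides -/
theorem opp_of_cr_zero (hT : IsPlaneDrawing T pos) (hx : Function.Injective fun v => (pos v).1)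
    {v u w : V} (hu : T.Adj v u) (hw : T.Adj v w) (huw : u ≠ w)
    (h0 : cr (pos v) (pos u) (pos w) = 0) :
    ((pos u).1 - (pos v).1) * ((pos w).1 - (pos v).1) < 0 := by
  have key : ∀ u w : V, T.Adj v u → T.Adj v w → u ≠ w → cr (pos v) (pos u) (pos w) = 0 →
      0 < ((pos u).1 - (pos v).1) * ((pos w).1 - (pos v).1) →
      |(pos u).1 - (pos v).1| ≤ |(pos w).1 - (pos v).1| → False := by
    intro u w hu hw huw h0 hp hle
    refine hT.2.1 v w u hw hu.ne' huw ?_
    have hxw := x_ne hx hw.ne'
    have hxu := x_ne hx hu.ne'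
    set a := (pos u).1 - (pos v).1 with ha
    set b := (pos w).1 - (pos v).1 with hb
    have hb2 : 0 < b ^ 2 := by positivity
    have ht0 : 0 ≤ a / b := by
      rw [div_eq_mul_inv]
      have : a * b⁻¹ = a * b / b ^ 2 := by field_simp
      rw [this]
      positivity
    have ht1 : a / b ≤ 1 := by
      calc a / b ≤ |a / b| := le_abs_self _
        _ = |a| / |b| := abs_div _ _
        _ ≤ 1 := div_le_one_of_le₀ hle (abs_nonneg _)
    refine ⟨1 - a / b, a / b, by linarith, ht0, by ring, ?_⟩
    have e0 : a * ((pos w).2 - (pos v).2) - ((pos u).2 - (pos v).2) * b = 0 := by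
      rw [ha, hb]; exact h0
    refine Prod.ext ?_ ?_
    · simp only [Prod.fst_add, Prod.smul_fst, smul_eq_mul]
      have : (pos w).1 = b + (pos v).1 := by rw [hb]; ring
      rw [this]
      have h2 : (pos u).1 = a + (pos v).1 := by rw [ha]; ring
      rw [h2]
      field_simp
      ring
    · simp only [Prod.snd_add, Prod.smul_snd, smul_eq_mul]
      field_simp
      linarith
  rcases lt_trichotomy (((pos u).1 - (pos v).1) * ((pos w).1 - (pos v).1)) 0 with h | h | h
  · exact h
  · rcases mul_eq_zero.1 h with h | h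
    · exact absurd h (x_ne hx hu.ne')
    · exact absurd h (x_ne hx hw.ne')
  · exfalso
    rcases le_total |(pos u).1 - (pos v).1| |(pos w).1 - (pos v).1| with hl | hl
    · exact key u w hu hw huw h0 h hl
    · refine key w u hw hu huw.symm ?_ (by rwa [mul_comm]) hl
      rw [cr_swap, h0, neg_zero]

/-- corners -/
def Cor (T : SimpleGraph V) (pos : V → ℝ × ℝ) (v u w : V) : Prop :=
  T.Adj v u ∧ T.Adj v w ∧ 0 < cr (pos v) (pos u) (pos w) ∧
    ∀ z, T.Adj v z → ¬ (0 < cr (pos v) (pos u) (pos z) ∧ 0 < cr (pos v) (pos z) (pos w))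

theorem Cor.unique (hT : IsPlaneDrawing T pos) (hx : Function.Injective fun v => (pos v).1)
    {v u w w' : V} (h : Cor T pos v u w) (h' : Cor T pos v u w') : w = w' := by
  by_contra hne
  obtain ⟨hu, hw, hc, hz⟩ := h
  obtain ⟨-, hw', hc', hz'⟩ := h'
  rcases lt_trichotomy (cr (pos v) (pos w) (pos w')) 0 with h | h | h
  · refine hz w' hw' ⟨hc', ?_⟩
    rw [cr_swap]
    linarith
  · have h1 := opp_of_cr_zero hT hx hw hw' hne h
    have h2 := cr_id (pos v) (pos u) (pos w) (pos w')
    rw [h, cr_swap (pos v) (pos u) (pos w')] at h2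
    set a := (pos w).1 - (pos v).1
    set b := (pos w').1 - (pos v).1
    have h3 : b * cr (pos v) (pos u) (pos w) = a * cr (pos v) (pos u) (pos w') := by linarith
    have h4 : b ^ 2 * cr (pos v) (pos u) (pos w) = a * b * cr (pos v) (pos u) (pos w') := by
      calc b ^ 2 * cr (pos v) (pos u) (pos w) = b * (b * cr (pos v) (pos u) (pos w)) := by ring
        _ = a * b * cr (pos v) (pos u) (pos w') := by rw [h3]; ring
    have h5 : 0 ≤ b ^ 2 * cr (pos v) (pos u) (pos w) := by positivity
    have h6 : a * b * cr (pos v) (pos u) (pos w') < 0 := mul_neg_of_neg_of_pos h1 hc'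
    linarith
  · exact hz' w hw ⟨hc, h⟩

theorem exists_cor [Fintype V] {v u z : V} (hu : T.Adj v u) (hz : T.Adj v z)
    (hpos : pos u ≠ pos v)
    (h : 0 < cr (pos v) (pos u) (pos z)) : ∃ w, Cor T pos v u w := by
  classical
  let Z : Finset V := Finset.univ.filter fun z => T.Adj v z ∧ 0 < cr (pos v) (pos u) (pos z)
  obtain ⟨w, hw, hmax⟩ := Finset.exists_max_image Z
    (fun z => (((pos u).1 - (pos v).1) * ((pos z).1 - (pos v).1) +
      ((pos u).2 - (pos v).2) * ((pos z).2 - (pos v).2)) / cr (pos v) (pos u) (pos z))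
    ⟨z, by simp [Z, hz, h]⟩
  simp only [Z, Finset.mem_filter, Finset.mem_univ, true_and] at hw hmax
  refine ⟨w, hu, hw.1, hw.2, fun y hy hyc => ?_⟩
  have h1 := hmax y ⟨hy, hyc.1⟩
  rw [div_le_div_iff₀ hyc.1 hw.2] at h1
  have h2 := cr_dot (pos v) (pos u) (pos w) (pos y)
  have h3 : 0 < ((pos u).1 - (pos v).1) ^ 2 + ((pos u).2 - (pos v).2) ^ 2 := by
    by_contra h4
    push Not at h4
    have e1 : ((pos u).1 - (pos v).1) ^ 2 = 0 := by nlinarith [sq_nonneg ((pos u).1 - (pos v).1), sq_nonneg ((pos u).2 - (pos v).2)]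
    have e2 : ((pos u).2 - (pos v).2) ^ 2 = 0 := by nlinarith [sq_nonneg ((pos u).1 - (pos v).1), sq_nonneg ((pos u).2 - (pos v).2)]
    exact hpos (Prod.ext (sub_eq_zero.1 (pow_eq_zero_iff two_ne_zero |>.1 e1))
      (sub_eq_zero.1 (pow_eq_zero_iff two_ne_zero |>.1 e2)))
  have h4 : 0 < (((pos u).1 - (pos v).1) ^ 2 + ((pos u).2 - (pos v).2) ^ 2) *
      cr (pos v) (pos y) (pos w) := mul_pos h3 hyc.2
  linarith

/-- middle corner of sign `s` -/
def Mid (T : SimpleGraph V) (pos : V → ℝ × ℝ) (s : ℝ) (v u w : V) : Prop :=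
  Cor T pos v u w ∧ 0 < s * ((pos u).1 - (pos v).1) ∧ s * ((pos w).1 - (pos v).1) < 0

/-- darts without left neighbour, of sign `s` -/
def Hs (T : SimpleGraph V) (pos : V → ℝ × ℝ) (s : ℝ) (v u : V) : Prop :=
  T.Adj v u ∧ (∀ z, T.Adj v z → cr (pos v) (pos u) (pos z) ≤ 0) ∧
    0 < s * ((pos u).1 - (pos v).1)

theorem Mid.unique (hT : IsPlaneDrawing T pos) (hx : Function.Injective fun v => (pos v).1)
    {s : ℝ} {v u w u' w' : V} (h : Mid T pos s v u w) (h' : Mid T pos s v u' w') :
    u = u' ∧ w = w' := by
  have hs : 0 < s ^ 2 := by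
    have : s ≠ 0 := by
      rintro rfl
      have := h.2.1
      simp at this
    positivity
  have key : ∀ u w u' w' : V, Mid T pos s v u w → Mid T pos s v u' w' →
      0 < cr (pos v) (pos u) (pos u') → False := by
    intro u w u' w' h h' hc
    refine h.1.2.2.2 u' h'.1.1 ⟨hc, ?_⟩
    have h2 := cr_id (pos v) (pos u) (pos w) (pos u')
    rw [cr_swap (pos v) (pos u) (pos u')] at h2
    rw [cr_swap (pos v) (pos w) (pos u')]
    set a := (pos u).1 - (pos v).1
    set b := (pos w).1 - (pos v).1
    set d := (pos u').1 - (pos v).1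
    set k := cr (pos v) (pos w) (pos u')
    have h3 : (s * a) * k = - ((s * d) * cr (pos v) (pos u) (pos w)) +
        (s * b) * cr (pos v) (pos u) (pos u') := by
      have : s * (d * cr (pos v) (pos u) (pos w) + a * k + b * -cr (pos v) (pos u) (pos u')) = 0 := by
        rw [h2, mul_zero]
      linarith
    have h4 : 0 < (s * d) * cr (pos v) (pos u) (pos w) := mul_pos h'.2.1 h.1.2.2.1
    have h5 : (s * b) * cr (pos v) (pos u) (pos u') < 0 := mul_neg_of_neg_of_pos h.2.2 hc
    have h6 : (s * a) * k < 0 := by linarith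
    have h7 : k < 0 := by
      by_contra h8
      push Not at h8
      have := mul_nonneg h.2.1.le h8
      linarith
    linarith
  have huu : u = u' := by
    by_contra hne
    rcases lt_trichotomy (cr (pos v) (pos u) (pos u')) 0 with hc | hc | hc
    · refine key u' w' u w h' h ?_
      rw [cr_swap]
      linarith
    · have h1 := opp_of_cr_zero hT hx h.1.1 h'.1.1 hne hc
      have h2 : 0 < (s * ((pos u).1 - (pos v).1)) * (s * ((pos u').1 - (pos v).1)) :=
        mul_pos h.2.1 h'.2.1
      nlinarith
    · exact key u w u' w' h h' hc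
  subst huu
  exact ⟨rfl, h.1.unique hT hx h'.1⟩

theorem Hs.unique (hT : IsPlaneDrawing T pos) (hx : Function.Injective fun v => (pos v).1)
    {s : ℝ} {v u u' : V} (h : Hs T pos s v u) (h' : Hs T pos s v u') : u = u' := by
  by_contra hne
  have hs : 0 < s ^ 2 := by
    have : s ≠ 0 := by
      rintro rfl
      have := h.2.2
      simp at this
    positivity
  have h0 : cr (pos v) (pos u) (pos u') = 0 := by
    have e1 := h.2.1 u' h'.1
    have e2 := h'.2.1 u h.1
    rw [cr_swap] at e2
    linarith
  have h1 := opp_of_cr_zero hT hx h.1 h'.1 hne h0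
  have h2 : 0 < (s * ((pos u).1 - (pos v).1)) * (s * ((pos u').1 - (pos v).1)) :=
    mul_pos h.2.2 h'.2.2
  nlinarith

theorem Mid.not_Hs {s : ℝ} {v u w z : V} (h : Mid T pos s v u w) (h' : Hs T pos s v z) :
    False := by
  have h2 := cr_id (pos v) (pos u) (pos w) (pos z)
  rw [cr_swap (pos v) (pos z) (pos w)] at h2
  have e1 := h'.2.1 u h.1.1
  have e2 := h'.2.1 w h.1.2.1
  set a := (pos u).1 - (pos v).1
  set b := (pos w).1 - (pos v).1
  set d := (pos z).1 - (pos v).1
  have h3 : (s * d) * cr (pos v) (pos u) (pos w) + (s * a) * (- cr (pos v) (pos z) (pos w)) +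
        (- (s * b)) * (- cr (pos v) (pos z) (pos u)) = 0 := by
    have : s * (d * cr (pos v) (pos u) (pos w) + a * -cr (pos v) (pos z) (pos w) +
        b * cr (pos v) (pos z) (pos u)) = 0 := by
      rw [h2, mul_zero]
    linarith
  have h4 : 0 < (s * d) * cr (pos v) (pos u) (pos w) := mul_pos h'.2.2 h.1.2.2.1
  have h5 : 0 ≤ (s * a) * (- cr (pos v) (pos z) (pos w)) :=
    mul_nonneg h.2.1.le (by linarith)
  have h6 : 0 ≤ (- (s * b)) * (- cr (pos v) (pos z) (pos u)) :=
    mul_nonneg (by linarith [h.2.2]) (by linarith)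
  linarith

/-- rotation of a corner -/
def rho (c : V × V × V) : V × V × V := (c.2.1, c.2.2, c.1)

open Classical in
theorem three [Fintype V] (C : Finset (V × V × V)) (hC : ∀ c ∈ C, rho c ∈ C)
    (f : V × V × V → ℕ) :
    ∑ c ∈ C, (f c + f (rho c) + f (rho (rho c))) = 3 * ∑ c ∈ C, f c := by
  have h3 : ∀ c : V × V × V, rho (rho (rho c)) = c := fun c => rfl
  have h1 : ∀ g : V × V × V → ℕ, ∑ c ∈ C, g (rho c) = ∑ c ∈ C, g c := by
    intro g
    refine Finset.sum_nbij' rho (fun c => rho (rho c)) hC (fun c hc => hC _ (hC _ hc)) ?_ ?_ ?_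
    · intro c _; exact h3 c
    · intro c _; exact h3 c
    · intro c _; rfl
  rw [Finset.sum_add_distrib, Finset.sum_add_distrib, h1 fun c => f (rho c), h1 f]
  ring

open Classical in
theorem local_bound [Fintype V] (hT : IsPlaneDrawing T pos)
    (hx : Function.Injective fun v => (pos v).1) (s : ℝ) (v : V) :
    2 * (Finset.univ.filter fun q : V × V => Mid T pos s v q.1 q.2).card +
      (Finset.univ.filter fun u : V => Hs T pos s v u).card ≤ 2 := by
  have h1 : (Finset.univ.filter fun q : V × V => Mid T pos s v q.1 q.2).card ≤ 1 := by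
    rw [Finset.card_le_one]
    rintro ⟨u, w⟩ h ⟨u', w'⟩ h'
    simp only [Finset.mem_filter, Finset.mem_univ, true_and] at h h'
    obtain ⟨rfl, rfl⟩ := h.unique hT hx h'
    rfl
  have h2 : (Finset.univ.filter fun u : V => Hs T pos s v u).card ≤ 1 := by
    rw [Finset.card_le_one]
    intro u h u' h'
    simp only [Finset.mem_filter, Finset.mem_univ, true_and] at h h'
    exact h.unique hT hx h'
  by_cases h : (Finset.univ.filter fun q : V × V => Mid T pos s v q.1 q.2) = ∅
  · rw [h, Finset.card_empty]
    omega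
  · obtain ⟨q, hq⟩ := Finset.nonempty_iff_ne_empty.2 h
    simp only [Finset.mem_filter, Finset.mem_univ, true_and] at hq
    have h3 : (Finset.univ.filter fun u : V => Hs T pos s v u) = ∅ := by
      rw [Finset.filter_eq_empty_iff]
      intro z _ hz
      exact hq.not_Hs hz
    rw [h3, Finset.card_empty]
    omega

open Classical in
/-- the local weight of a vertex -/
noncomputable def wt [Fintype V] (T : SimpleGraph V) (pos : V → ℝ × ℝ) (v : V) : ℕ :=
  (2 * (Finset.univ.filter fun q : V × V => Mid T pos 1 v q.1 q.2).card +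
      (Finset.univ.filter fun u : V => Hs T pos 1 v u).card) +
  (2 * (Finset.univ.filter fun q : V × V => Mid T pos (-1) v q.1 q.2).card +
      (Finset.univ.filter fun u : V => Hs T pos (-1) v u).card)

theorem wt_le [Fintype V] (hT : IsPlaneDrawing T pos)
    (hx : Function.Injective fun v => (pos v).1) (v : V) : wt T pos v ≤ 4 := by
  classical
  have h1 := local_bound hT hx 1 v
  have h2 := local_bound hT hx (-1) v
  unfold wt
  convert Nat.add_le_add h1 h2

open Classical in
theorem wt_ext [Fintype V] (hT : IsPlaneDrawing T pos)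
    (hx : Function.Injective fun v => (pos v).1) (v : V)
    (h : (∀ u, (pos v).1 ≤ (pos u).1) ∨ (∀ u, (pos u).1 ≤ (pos v).1)) : wt T pos v ≤ 1 := by
  have hm : ∀ s : ℝ, (Finset.univ.filter fun q : V × V => Mid T pos s v q.1 q.2) = ∅ := by
    intro s
    rw [Finset.filter_eq_empty_iff]
    rintro ⟨u, w⟩ _ hq
    have h1 := hq.2.1
    have h2 := hq.2.2
    simp only at h1 h2
    rcases h with h | h
    · have e1 := h u
      have e2 := h w
      have hs : 0 < s := by
        by_contra h0
        push Not at h0
        nlinarith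
      nlinarith
    · have e1 := h u
      have e2 := h w
      have hs : s < 0 := by
        by_contra h0
        push Not at h0
        nlinarith
      nlinarith
  have hh : ∀ s : ℝ, (Finset.univ.filter fun u : V => Hs T pos s v u).card ≤ 1 := by
    intro s
    have := local_bound hT hx s v
    rw [hm s, Finset.card_empty] at this
    rw [Finset.card_le_one]
    intro u h u' h'
    simp only [Finset.mem_filter, Finset.mem_univ, true_and] at h h'
    exact h.unique hT hx h'
  have hz : (Finset.univ.filter fun u : V => Hs T pos 1 v u) = ∅ ∨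
      (Finset.univ.filter fun u : V => Hs T pos (-1) v u) = ∅ := by
    rcases h with h | h
    · right
      rw [Finset.filter_eq_empty_iff]
      intro u _ hu
      have := hu.2.2
      have := h u
      linarith
    · left
      rw [Finset.filter_eq_empty_iff]
      intro u _ hu
      have := hu.2.2
      have := h u
      linarith
  unfold wt
  rw [hm, hm, Finset.card_empty]
  have a1 := hh 1
  have a2 := hh (-1)
  rcases hz with hz | hz
  · rw [hz, Finset.card_empty]
    omega
  · rw [hz, Finset.card_empty]
    omega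

open Classical in
theorem sum_wt [Fintype V] (hT : IsPlaneDrawing T pos)
    (hx : Function.Injective fun v => (pos v).1) (hV : 2 ≤ Fintype.card V) :
    ∑ v, wt T pos v + 6 ≤ 4 * Fintype.card V := by
  have hne : Nonempty V := Fintype.card_pos_iff.1 (by omega)
  obtain ⟨a, ha⟩ := Finite.exists_min fun v => (pos v).1
  obtain ⟨b, hb⟩ := Finite.exists_max fun v => (pos v).1
  have hab : a ≠ b := by
    rintro rfl
    have : ∀ u v : V, u = v := by
      intro u v
      apply hx
      have e1 := ha u
      have e2 := hb u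
      have e3 := ha v
      have e4 := hb v
      simp only
      linarith
    have : Fintype.card V ≤ 1 := Fintype.card_le_one_iff.2 this
    omega
  have wa := wt_ext hT hx a (Or.inl ha)
  have wb := wt_ext hT hx b (Or.inr hb)
  have hsub : ({a, b} : Finset V) ⊆ Finset.univ := Finset.subset_univ _
  rw [← Finset.sum_sdiff hsub, Finset.sum_pair hab]
  have h1 : ∑ v ∈ Finset.univ \ ({a, b} : Finset V), wt T pos v ≤
      (Finset.univ \ ({a, b} : Finset V)).card * 4 :=
    Finset.sum_le_card_nsmul _ _ _ fun v _ => wt_le hT hx v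
  have h2 : (Finset.univ \ ({a, b} : Finset V)).card + 2 = Fintype.card V := by
    rw [← Finset.card_pair hab, Finset.card_sdiff_add_card_eq_card hsub]
    exact Finset.card_univ
  omega

end CountE

open Classical CountE in
theorem darts_le_of_corner {V : Type} [Fintype V] {T G : SimpleGraph V} {pos : V → ℝ × ℝ}
    (hT : IsPlaneDrawing T pos) (hx : Function.Injective fun v => (pos v).1)
    (hcc : ∀ v u w, T.Adj v u → T.Adj v w → 0 < cr (pos v) (pos u) (pos w) →
      (∀ z, T.Adj v z →
        ¬ (0 < cr (pos v) (pos u) (pos z) ∧ 0 < cr (pos v) (pos z) (pos w))) →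
      T.Adj u w ∧ ∀ z, T.Adj u z →
        ¬ (0 < cr (pos u) (pos w) (pos z) ∧ 0 < cr (pos u) (pos z) (pos v)))
    (hGT : G ≤ T) (htri : G.CliqueFree 3) (hV : 2 ≤ Fintype.card V) :
    dartsOn G Finset.univ + 6 ≤ 4 * Fintype.card V := by
  let C : Finset (V × V × V) := Finset.univ.filter fun c => Cor T pos c.1 c.2.1 c.2.2
  have hC : ∀ c, c ∈ C ↔ Cor T pos c.1 c.2.1 c.2.2 := fun c => by simp [C]
  have hrho : ∀ c ∈ C, rho c ∈ C := by
    rintro ⟨v, u, w⟩ hc
    rw [hC] at hc ⊢
    obtain ⟨h1, h2, h3, h4⟩ := hc
    obtain ⟨h5, h6⟩ := hcc v u w h1 h2 h3 h4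
    refine ⟨h5, h1.symm, ?_, h6⟩
    change 0 < cr (pos u) (pos w) (pos v)
    rw [cr_cyc]
    exact h3
  have htriC : ∀ c ∈ C, T.Adj c.2.1 c.2.2 := by
    rintro ⟨v, u, w⟩ hc
    exact ((hC _).1 (hrho _ hc)).1
  let M : Finset (V × V × V) := C.filter fun c =>
    Mid T pos 1 c.1 c.2.1 c.2.2 ∨ Mid T pos (-1) c.1 c.2.1 c.2.2
  -- number of corners = 3 * middle corners
  have hCM : C.card = 3 * M.card := by
    let f : V × V × V → ℕ := fun c =>
      if Mid T pos 1 c.1 c.2.1 c.2.2 ∨ Mid T pos (-1) c.1 c.2.1 c.2.2 then 1 else 0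
    have h1 : M.card = ∑ c ∈ C, f c := by
      rw [Finset.card_filter]
    have h2 : ∀ c ∈ C, f c + f (rho c) + f (rho (rho c)) = 1 := by
      rintro ⟨v, u, w⟩ hc
      have hc1 := hrho _ hc
      have hc2 := hrho _ hc1
      have huw := htriC _ hc
      rw [hC] at hc hc1 hc2
      have k1 : (Mid T pos 1 v u w ∨ Mid T pos (-1) v u w) ↔
          ((pos w).1 < (pos v).1 ∧ (pos v).1 < (pos u).1) ∨
            ((pos u).1 < (pos v).1 ∧ (pos v).1 < (pos w).1) := by
        constructor
        · rintro (h | h)
          · left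
            have a1 := h.2.1
            have a2 := h.2.2
            constructor <;> linarith
          · right
            have a1 := h.2.1
            have a2 := h.2.2
            constructor <;> linarith
        · rintro (h | h)
          · left
            exact ⟨hc, by linarith [h.2], by linarith [h.1]⟩
          · right
            exact ⟨hc, by linarith [h.1], by linarith [h.2]⟩
      have k2 : (Mid T pos 1 u w v ∨ Mid T pos (-1) u w v) ↔
          ((pos v).1 < (pos u).1 ∧ (pos u).1 < (pos w).1) ∨
            ((pos w).1 < (pos u).1 ∧ (pos u).1 < (pos v).1) := by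
        constructor
        · rintro (h | h)
          · left
            have a1 := h.2.1
            have a2 := h.2.2
            constructor <;> linarith
          · right
            have a1 := h.2.1
            have a2 := h.2.2
            constructor <;> linarith
        · rintro (h | h)
          · left
            exact ⟨hc1, by linarith [h.2], by linarith [h.1]⟩
          · right
            exact ⟨hc1, by linarith [h.1], by linarith [h.2]⟩
      have k3 : (Mid T pos 1 w v u ∨ Mid T pos (-1) w v u) ↔
          ((pos u).1 < (pos w).1 ∧ (pos w).1 < (pos v).1) ∨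
            ((pos v).1 < (pos w).1 ∧ (pos w).1 < (pos u).1) := by
        constructor
        · rintro (h | h)
          · left
            have a1 := h.2.1
            have a2 := h.2.2
            constructor <;> linarith
          · right
            have a1 := h.2.1
            have a2 := h.2.2
            constructor <;> linarith
        · rintro (h | h)
          · left
            exact ⟨hc2, by linarith [h.2], by linarith [h.1]⟩
          · right
            exact ⟨hc2, by linarith [h.1], by linarith [h.2]⟩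
      change (if Mid T pos 1 v u w ∨ Mid T pos (-1) v u w then 1 else 0) +
        (if Mid T pos 1 u w v ∨ Mid T pos (-1) u w v then 1 else 0) +
        (if Mid T pos 1 w v u ∨ Mid T pos (-1) w v u then 1 else 0) = 1
      rw [if_congr k1 rfl rfl, if_congr k2 rfl rfl, if_congr k3 rfl rfl]
      have n1 : (pos v).1 ≠ (pos u).1 := fun h => hc.1.ne (hx h)
      have n2 : (pos v).1 ≠ (pos w).1 := fun h => hc.2.1.ne (hx h)
      have n3 : (pos u).1 ≠ (pos w).1 := fun h => huw.ne (hx h)
      rcases lt_or_gt_of_ne n1 with l1 | l1 <;> rcases lt_or_gt_of_ne n2 with l2 | l2 <;>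
        rcases lt_or_gt_of_ne n3 with l3 | l3 <;>
        simp only [l1, l2, l3, l1.not_gt, l2.not_gt, l3.not_gt, and_true, and_false, or_true,
          or_false, if_true, if_false, and_self] <;> linarith
    rw [h1, ← three C hrho f, Finset.sum_congr rfl h2]
    simp
  -- darts
  let DT : Finset (V × V) := Finset.univ.filter fun p => T.Adj p.1 p.2
  let DG : Finset (V × V) := Finset.univ.filter fun p => G.Adj p.1 p.2
  let HH : Finset (V × V) := Finset.univ.filter fun p =>
    T.Adj p.1 p.2 ∧ ∀ z, T.Adj p.1 z → cr (pos p.1) (pos p.2) (pos z) ≤ 0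
  have hinj : Set.InjOn (fun c : V × V × V => (c.1, c.2.1)) (C : Set (V × V × V)) := by
    rintro ⟨v, u, w⟩ h ⟨v', u', w'⟩ h' heq
    rw [Finset.mem_coe, hC] at h h'
    simp only [Prod.mk.injEq] at heq
    obtain ⟨rfl, rfl⟩ := heq
    have h2 : w = w' := Cor.unique hT hx h h'
    rw [h2]
  have hDT : DT.card ≤ HH.card + C.card := by
    have : DT ⊆ HH ∪ C.image fun c => (c.1, c.2.1) := by
      rintro ⟨v, u⟩ h
      simp only [DT, Finset.mem_filter, Finset.mem_univ, true_and] at h
      rw [Finset.mem_union]
      by_cases h' : ∀ z, T.Adj v z → cr (pos v) (pos u) (pos z) ≤ 0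
      · left
        simp only [HH, Finset.mem_filter, Finset.mem_univ, true_and]
        exact ⟨h, h'⟩
      · right
        push Not at h'
        obtain ⟨z, hz, hz'⟩ := h'
        obtain ⟨w, hw⟩ := exists_cor h hz (fun h0 => h.ne (hT.1 h0).symm) hz'
        exact Finset.mem_image.2 ⟨(v, u, w), (hC _).2 hw, rfl⟩
    refine (Finset.card_le_card this).trans ((Finset.card_union_le _ _).trans ?_)
    exact Nat.add_le_add_left Finset.card_image_le _
  have hDG : DG.card + M.card ≤ DT.card := by
    let f : V × V × V → ℕ := fun c => if ¬ G.Adj c.1 c.2.1 then 1 else 0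
    have h1 : C.card ≤ 3 * ∑ c ∈ C, f c := by
      rw [← three C hrho f, Finset.card_eq_sum_ones]
      refine Finset.sum_le_sum ?_
      rintro ⟨v, u, w⟩ hc
      by_contra hlt
      push Not at hlt
      have e0 : f (v, u, w) = 0 ∧ f (rho (v, u, w)) = 0 ∧ f (rho (rho (v, u, w))) = 0 := by
        omega
      have a1 : G.Adj v u := by
        by_contra h0
        have := e0.1
        simp [f, h0] at this
      have a2 : G.Adj u w := by
        by_contra h0
        have := e0.2.1
        simp [f, rho, h0] at this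
      have a3 : G.Adj w v := by
        by_contra h0
        have := e0.2.2
        simp [f, rho, h0] at this
      exact htri {v, u, w} (SimpleGraph.is3Clique_triple_iff.2 ⟨a1, a3.symm, a2⟩)
    have h2 : ∑ c ∈ C, f c = (C.filter fun c => ¬ G.Adj c.1 c.2.1).card := by
      rw [Finset.card_filter]
    have h3 : (C.filter fun c => ¬ G.Adj c.1 c.2.1).card ≤ (DT \ DG).card := by
      refine Finset.card_le_card_of_injOn (fun c : V × V × V => (c.1, c.2.1)) ?_ ?_
      · rintro ⟨v, u, w⟩ h
        rw [Finset.mem_coe, Finset.mem_filter, hC] at h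
        simp only [DT, DG, Finset.coe_sdiff, Set.mem_sdiff, Finset.mem_coe, Finset.mem_filter,
          Finset.mem_univ, true_and]
        exact ⟨h.1.1, h.2⟩
      · exact hinj.mono (by intro c hc; exact (Finset.mem_filter.1 hc).1)
    have h4 : DG ⊆ DT := by
      intro p hp
      simp only [DT, DG, Finset.mem_filter, Finset.mem_univ, true_and] at hp ⊢
      exact hGT hp
    have h5 := Finset.card_sdiff_add_card_eq_card h4
    omega
  have hsum : 2 * M.card + HH.card ≤ ∑ v, wt T pos v := by
    have m1 : M.card ≤ ∑ v, ((Finset.univ.filter fun q : V × V => Mid T pos 1 v q.1 q.2).card +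
        (Finset.univ.filter fun q : V × V => Mid T pos (-1) v q.1 q.2).card) := by
      have : M.card = ∑ v, (M.filter fun c => c.1 = v).card :=
        Finset.card_eq_sum_card_fiberwise fun c _ => Finset.mem_coe.2 (Finset.mem_univ _)
      rw [this]
      refine Finset.sum_le_sum fun v _ => ?_
      refine le_trans ?_ (Finset.card_union_le _ _)
      refine Finset.card_le_card_of_injOn (fun c : V × V × V => c.2) ?_ ?_
      · rintro ⟨v', u, w⟩ h
        rw [Finset.mem_coe, Finset.mem_filter] at h
        obtain ⟨h, h0⟩ := h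
        simp only at h0
        subst h0
        rw [Finset.mem_filter] at h
        rw [Finset.mem_coe, Finset.mem_union]
        simpa using h.2
      · rintro ⟨v', u, w⟩ h ⟨v'', u', w'⟩ h' heq
        rw [Finset.mem_coe, Finset.mem_filter] at h h'
        have e1 := h.2
        have e2 := h'.2
        simp only at e1 e2 heq
        subst e1
        subst e2
        rw [heq]
    have m2 : HH.card ≤ ∑ v, ((Finset.univ.filter fun u : V => Hs T pos 1 v u).card +
        (Finset.univ.filter fun u : V => Hs T pos (-1) v u).card) := by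
      have : HH.card = ∑ v, (HH.filter fun c => c.1 = v).card :=
        Finset.card_eq_sum_card_fiberwise fun c _ => Finset.mem_coe.2 (Finset.mem_univ _)
      rw [this]
      refine Finset.sum_le_sum fun v _ => ?_
      refine le_trans ?_ (Finset.card_union_le _ _)
      refine Finset.card_le_card_of_injOn (fun c : V × V => c.2) ?_ ?_
      · rintro ⟨v', u⟩ h
        rw [Finset.mem_coe, Finset.mem_filter] at h
        obtain ⟨h, h0⟩ := h
        simp only at h0
        subst h0
        simp only [HH, Finset.mem_filter, Finset.mem_univ, true_and] at h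
        rw [Finset.mem_coe, Finset.mem_union]
        simp only [Finset.mem_filter, Finset.mem_univ, true_and]
        rcases lt_or_gt_of_ne (x_ne hx h.1.ne') with h1 | h1
        · right
          exact ⟨h.1, h.2, by linarith⟩
        · left
          exact ⟨h.1, h.2, by linarith⟩
      · rintro ⟨v', u⟩ h ⟨v'', u'⟩ h' heq
        rw [Finset.mem_coe, Finset.mem_filter] at h h'
        have e1 := h.2
        have e2 := h'.2
        simp only at e1 e2 heq
        subst e1
        subst e2
        rw [heq]
    have m3 : ∑ v, wt T pos v = 2 * ∑ v, ((Finset.univ.filter fun q : V × V =>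
        Mid T pos 1 v q.1 q.2).card +
        (Finset.univ.filter fun q : V × V => Mid T pos (-1) v q.1 q.2).card) +
        ∑ v, ((Finset.univ.filter fun u : V => Hs T pos 1 v u).card +
        (Finset.univ.filter fun u : V => Hs T pos (-1) v u).card) := by
      rw [Finset.mul_sum, ← Finset.sum_add_distrib]
      refine Finset.sum_congr rfl fun v _ => ?_
      unfold wt
      ring
    rw [m3]
    omega
  have hfin := sum_wt hT hx hV
  have hD : dartsOn G Finset.univ = DG.card := by
    unfold dartsOn
    simp only [DG]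
    congr 1
  rw [hD]
  omega

end Pool.Agent.Lib.MP_6a62cd_co.Four
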