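import Pool.Agent.Lib.MP_6a62cd_co.FourD
import Pool.Agent.Lib.MP_6a62cd_co.FourE

/-!
MP_6a62cd_co, piece F: shear, maximal plane graphs, sparsity of plane triangle-free graphs.
-/

namespace Pool.Agent.Lib.MP_6a62cd_co.Four

/-- Injective linear maps preserve plane drawings. -/
theorem IsPlaneDrawing.map {V : Type} {G : SimpleGraph V} {pos : V → ℝ × ℝ}
    (h : IsPlaneDrawing G pos) (A : ℝ × ℝ →ₗ[ℝ] ℝ × ℝ) (hA : Function.Injective A) :
    IsPlaneDrawing G fun v => A (pos v) := by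
  obtain ⟨h1, h2, h3⟩ := h
  have key : ∀ a b p : ℝ × ℝ, p ∈ segment ℝ (A a) (A b) ↔ ∃ q ∈ segment ℝ a b, A q = p := by
    intro a b p
    have := image_segment ℝ A.toAffineMap a b
    rw [show segment ℝ (A a) (A b) = A '' segment ℝ a b from this.symm]
    rfl
  refine ⟨hA.comp h1, ?_, ?_⟩
  · intro u v w huv hwu hwv hmem
    obtain ⟨p, hp, hpw⟩ := (key (pos u) (pos v) (A (pos w))).1 hmem
    rw [hA hpw] at hp
    exact h2 u v w huv hwu hwv hp
  · intro u v x y huv hxy hne p hp hp'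
    obtain ⟨q, hq, rfl⟩ := (key (pos u) (pos v) p).1 hp
    obtain ⟨q', hq', hqq⟩ := (key (pos x) (pos y) (A q)).1 hp'
    rw [hA hqq] at hq'
    rcases h3 u v x y huv hxy hne q hq hq' with h | h
    · exact Or.inl (congrArg A h)
    · exact Or.inr (congrArg A h)

/-- the shear `(x, y) ↦ (x + t y, y)` -/
def shear (t : ℝ) : ℝ × ℝ →ₗ[ℝ] ℝ × ℝ where
  toFun p := (p.1 + t * p.2, p.2)
  map_add' p q := by
    ext
    · simp only [Prod.fst_add, Prod.snd_add]; ring
    · simp
  map_smul' c p := by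
    ext
    · simp only [Prod.smul_fst, Prod.smul_snd, smul_eq_mul, RingHom.id_apply]; ring
    · simp

theorem shear_injective (t : ℝ) : Function.Injective (shear t) := by
  intro p q h
  have h1 : p.1 + t * p.2 = q.1 + t * q.2 := congrArg (fun z : ℝ × ℝ => z.1) h
  have h2 : (shear t p).2 = (shear t q).2 := congrArg (fun z : ℝ × ℝ => z.2) h
  replace h2 : p.2 = q.2 := h2
  ext
  · rw [h2] at h1
    linarith
  · exact h2

theorem exists_shear {V : Type} [Finite V] {G : SimpleGraph V} {pos : V → ℝ × ℝ}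
    (h : IsPlaneDrawing G pos) :
    ∃ pos' : V → ℝ × ℝ, IsPlaneDrawing G pos' ∧ Function.Injective fun v => (pos' v).1 := by
  have hfin : (⋃ p : V × V, {t : ℝ | p.1 ≠ p.2 ∧
      (pos p.1).1 + t * (pos p.1).2 = (pos p.2).1 + t * (pos p.2).2}).Finite := by
    refine Set.finite_iUnion fun p => Set.Subsingleton.finite ?_
    rintro s ⟨hne, hs⟩ t ⟨-, ht⟩
    have h1 : (s - t) * ((pos p.1).2 - (pos p.2).2) = 0 := by linarith
    rcases mul_eq_zero.1 h1 with h2 | h2
    · linarith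
    · exfalso
      have h3 : (pos p.1).2 = (pos p.2).2 := by linarith
      have h4 : (pos p.1).1 = (pos p.2).1 := by
        rw [h3] at hs
        linarith
      exact hne (h.1 (Prod.ext h4 h3))
  obtain ⟨t, ht⟩ := hfin.exists_notMem
  refine ⟨fun v => shear t (pos v), h.map _ (shear_injective t), ?_⟩
  intro u v huv
  by_contra hne
  exact ht (Set.mem_iUnion.2 ⟨(u, v), hne, huv⟩)

theorem exists_maximal {V : Type} [Finite V] {G : SimpleGraph V} {pos : V → ℝ × ℝ}
    (h : IsPlaneDrawing G pos) :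
    ∃ T : SimpleGraph V, G ≤ T ∧ IsPlaneDrawing T pos ∧
      ∀ T' : SimpleGraph V, T ≤ T' → IsPlaneDrawing T' pos → T' ≤ T := by
  have hfin : {T : SimpleGraph V | IsPlaneDrawing T pos}.Finite := Set.toFinite _
  obtain ⟨T, hGT, hT⟩ := hfin.exists_le_maximal (show G ∈ _ from h)
  exact ⟨T, hGT, hT.prop, fun T' h1 h2 => hT.le_of_ge h2 h1⟩

theorem IsPlanar.comap {V W : Type} {G : SimpleGraph V} (h : IsPlanar G) (f : W → V)
    (hf : Function.Injective f) : IsPlanar (G.comap f) := by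
  obtain ⟨pos, h1, h2, h3⟩ := h
  refine ⟨pos ∘ f, h1.comp hf, ?_, ?_⟩
  · intro u v w huv hwu hwv
    exact h2 _ _ _ huv (hf.ne hwu) (hf.ne hwv)
  · intro u v x y huv hxy hne p hp hp'
    refine h3 _ _ _ _ huv hxy ?_ p hp hp'
    intro h4
    apply hne
    exact Sym2.map.injective hf (by simpa using h4)

theorem dartsOn_eq_comap {V : Type} (G : SimpleGraph V) (S : Finset V) :
    dartsOn G S = dartsOn (G.comap (Subtype.val : S → V)) Finset.univ := by
  classical
  unfold dartsOn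
  symm
  refine Finset.card_bij (fun p _ => ((p.1 : V), (p.2 : V))) ?_ ?_ ?_
  · rintro ⟨a, b⟩ hp
    simp only [Finset.mem_filter, Finset.mem_product, Finset.mem_univ, true_and,
      SimpleGraph.comap_adj] at hp ⊢
    exact ⟨⟨a.2, b.2⟩, hp⟩
  · rintro ⟨a, b⟩ - ⟨a', b'⟩ - hab
    simp only [Prod.mk.injEq] at hab
    exact Prod.ext (Subtype.ext hab.1) (Subtype.ext hab.2)
  · rintro ⟨a, b⟩ hp
    simp only [Finset.mem_filter, Finset.mem_product] at hp
    refine ⟨(⟨a, hp.1.1⟩, ⟨b, hp.1.2⟩), ?_, rfl⟩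
    simp only [Finset.mem_filter, Finset.mem_product, Finset.mem_univ, true_and,
      SimpleGraph.comap_adj]
    exact hp.2

theorem plane_sparse {V : Type} [Finite V] {G : SimpleGraph V} (h : IsPlanar G)
    (htri : G.CliqueFree 3) (S : Finset V) (hS : 2 ≤ S.card) :
    dartsOn G S + 6 ≤ 4 * S.card := by
  have h1 := h.comap (Subtype.val : S → V) Subtype.val_injective
  obtain ⟨pos, hpos⟩ := h1
  obtain ⟨pos', hpos', hx⟩ := exists_shear hpos
  obtain ⟨T, hGT, hT, hmax⟩ := exists_maximal hpos'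
  have h2 : (G.comap (Subtype.val : S → V)).CliqueFree 3 :=
    htri.comap ⟨⟨(SimpleGraph.Embedding.comap ⟨Subtype.val, Subtype.val_injective⟩ G).toHom,
      Subtype.val_injective⟩⟩
  have h3 := darts_le_of_corner hT hx
    (fun v u w hu hw hc hcons => corner_closed hT hmax hu hw hc hcons) hGT h2
    (by simpa using hS)
  rw [dartsOn_eq_comap]
  simpa using h3

end Pool.Agent.Lib.MP_6a62cd_co.Four
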