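import Mathlib
import Pool.Agent.Lib.MP_6a62cd_co.FourDefs

/-!
Acyclic graphs are rank forests.
-/

namespace Pool.Agent.Lib.MP_6a62cd_co.Four

open SimpleGraph

/-- extend a shortest path from `a` to `u` to a neighbour `v` of `u` that is not nearer to `a` -/
theorem concat_isPath {V : Type} {F : SimpleGraph V} {a u v : V} (p : F.Walk a u)
    (hp : p.length = F.dist a u) (h : F.Adj u v) (hd : F.dist a u ≤ F.dist a v) :
    (p.concat h).IsPath := by
  classical
  have hpath : p.IsPath := p.isPath_of_length_eq_dist hp
  rw [Walk.isPath_def, Walk.support_concat, List.nodup_append]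
  refine ⟨(Walk.isPath_def p).1 hpath, by simp, ?_⟩
  intro x hx y hy hxy
  simp only [List.mem_singleton] at hy
  subst hy
  subst hxy
  have h1 : F.dist a x ≤ (p.takeUntil x hx).length := dist_le _
  have h2 : (p.takeUntil x hx).length < p.length := Walk.length_takeUntil_lt_length hx h.ne'
  omega

theorem exists_rankForest {V : Type} (F : SimpleGraph V) (hF : F.IsAcyclic) :
    ∃ r : V → ℚ, RankForest F r := by
  classical
  -- a root in every component
  set ρ : V → V := fun v => (F.connectedComponentMk v).out with hρ
  have hreach : ∀ v, F.Reachable (ρ v) v := fun v =>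
    ConnectedComponent.exact (Quot.out_eq (F.connectedComponentMk v))
  have hroot : ∀ u v, F.Adj u v → ρ u = ρ v := by
    intro u v h
    have : F.connectedComponentMk u = F.connectedComponentMk v :=
      ConnectedComponent.sound h.reachable
    simp only [hρ, this]
  refine ⟨fun v => (F.dist (ρ v) v : ℚ), ?_, ?_⟩
  · intro u v h e
    beta_reduce at e
    have e' : F.dist (ρ u) u = F.dist (ρ u) v := by
      have : F.dist (ρ u) u = F.dist (ρ v) v := by exact_mod_cast e
      rw [this, hroot u v h]
    obtain ⟨p, hp⟩ := (hreach u).exists_walk_length_eq_dist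
    have hv : F.Reachable (ρ u) v := (hreach u).trans h.reachable
    obtain ⟨q, hq⟩ := hv.exists_walk_length_eq_dist
    have h1 := concat_isPath p hp h e'.le
    have h2 : q.IsPath := q.isPath_of_length_eq_dist hq
    have h3 := (hF.subsingleton_path _ _).elim ⟨_, h1⟩ ⟨_, h2⟩
    have h4 : (p.concat h).length = q.length := by
      rw [Subtype.mk.injEq] at h3
      rw [h3]
    rw [Walk.length_concat] at h4
    omega
  · intro v u u' hu hu' hlt hlt'
    beta_reduce at hlt hlt'
    have d1 : F.dist (ρ v) u < F.dist (ρ v) v := by
      rw [hroot v u hu]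
      have : F.dist (ρ u) u < F.dist (ρ v) v := by exact_mod_cast hlt
      rwa [hroot v u hu] at this
    have d2 : F.dist (ρ v) u' < F.dist (ρ v) v := by
      rw [hroot v u' hu']
      have : F.dist (ρ u') u' < F.dist (ρ v) v := by exact_mod_cast hlt'
      rwa [hroot v u' hu'] at this
    have r1 : F.Reachable (ρ v) u := (hreach v).trans hu.reachable
    have r2 : F.Reachable (ρ v) u' := (hreach v).trans hu'.reachable
    obtain ⟨p, hp⟩ := r1.exists_walk_length_eq_dist
    obtain ⟨q, hq⟩ := r2.exists_walk_length_eq_dist
    have h1 := concat_isPath p hp hu.symm d1.le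
    have h2 := concat_isPath q hq hu'.symm d2.le
    have h3 := (hF.subsingleton_path _ _).elim ⟨_, h1⟩ ⟨_, h2⟩
    rw [Subtype.mk.injEq] at h3
    have h4 := congrArg Walk.penultimate h3
    rwa [Walk.penultimate_concat, Walk.penultimate_concat] at h4

end Pool.Agent.Lib.MP_6a62cd_co.Four
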