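import Mathlib
import Pool.Agent.Lib.MP_6a62cd_co.FourDefs

/-!
A planar bipartite graph with 38 vertices whose list packing number is at least 4.
-/

namespace Pool.Agent.Lib.MP_6a62cd_co.ListEx

open Pool.Agent.Lib.MP_6a62cd_co.Four (IsListPacking ListPackable IsPlaneDrawing IsPlanar)

/-! ### Data -/

/-- edges, the end on side `0` first -/
def edgesL : List (ℕ × ℕ) :=
  [(0, 2), (0, 4), (0, 22), (0, 23), (1, 2), (1, 4), (1, 5), (1, 13), (1, 14), (3, 2), (3, 4),
    (3, 5), (3, 7), (3, 13), (3, 14), (3, 16), (3, 17), (3, 22), (3, 23), (3, 25), (3, 26), (6,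
    4), (6, 5), (6, 7), (6, 8), (10, 4), (10, 7), (10, 9), (11, 4), (11, 8), (11, 9), (12, 7),
    (12, 8), (12, 9), (15, 13), (15, 14), (15, 16), (19, 16), (19, 17), (19, 18), (20, 13), (20,
    16), (20, 18), (21, 13), (21, 17), (21, 18), (24, 22), (24, 23), (24, 25), (28, 25), (28,
    26), (28, 27), (29, 23), (29, 25), (29, 27), (30, 23), (30, 26), (30, 27), (31, 4), (31, 8),
    (32, 7), (32, 8), (33, 8), (33, 9), (34, 13), (34, 17), (35, 13), (35, 18), (36, 23), (36,
    26), (37, 23), (37, 27)]

/-- the two sides -/
def sideL : List ℕ :=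
  [0, 0, 1, 0, 1, 1, 0, 1, 1, 1, 0, 0, 0, 1, 1, 0, 1, 1, 1, 0, 0, 0, 1, 1, 0, 1, 1, 1, 0, 0,
    0, 0, 0, 0, 0, 0, 0, 0]

/-- the lists -/
def listsL : List (List ℕ) :=
  [[0, 1, 2], [0, 2, 3], [1, 3, 4], [0, 2, 4], [0, 3, 4], [0, 1, 4], [1, 2, 3], [0, 2, 4], [2,
    3, 4], [1, 2, 4], [1, 2, 4], [0, 1, 4], [0, 1, 3], [2, 3, 4], [1, 2, 4], [0, 1, 3], [0, 2,
    4], [0, 2, 3], [1, 2, 3], [0, 2, 3], [0, 3, 4], [0, 1, 4], [1, 2, 4], [2, 3, 4], [0, 1, 3],
    [0, 2, 4], [0, 2, 3], [1, 2, 3], [0, 2, 3], [0, 3, 4], [0, 1, 4], [0, 3, 4], [0, 2, 4], [0,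
    2, 4], [0, 2, 3], [0, 2, 3], [0, 2, 3], [0, 2, 3]]

/-- coordinates -/
def posL : List (ℤ × ℤ) :=
  [(0, 0), (88, 0), (48, 88), (45, 31), (13, 3), (73, 5), (64, 7), (46, 25), (51, 9), (39,
    14), (29, 12), (31, 8), (45, 16), (52, 74), (80, 9), (76, 15), (69, 23), (51, 38), (56, 48),
    (61, 33), (61, 41), (53, 52), (41, 72), (10, 11), (39, 64), (38, 54), (37, 32), (27, 31),
    (35, 42), (27, 36), (25, 24), (45, 7), (54, 14), (41, 10), (50, 49), (56, 55), (31, 25),
    (21, 25)]

def permL : List (List ℕ) :=
  [[0, 1, 2], [0, 2, 1], [1, 0, 2], [1, 2, 0], [2, 0, 1], [2, 1, 0]]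

def lst (v : ℕ) : List ℕ := listsL.getD v []

/-- the `i`-th colour of the arrangement number `s` of the list of `v` -/
def colr (v s i : ℕ) : ℕ := (lst v).getD ((permL.getD s []).getD i 0) 0

def compatB (v w u s : ℕ) : Bool :=
  (List.range 3).all fun i => colr v w i != colr u s i

/-- edge relation on numbers -/
def adjB (u v : ℕ) : Bool := edgesL.contains (u, v) || edgesL.contains (v, u)

/-- the graph -/
def G : SimpleGraph (Fin 38) where
  Adj u v := adjB u v = true
  symm := ⟨fun u v h => by simpa [adjB, Bool.or_comm] using h⟩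
  loopless := ⟨by decide +kernel⟩

/-! ### Elimination certificate -/

/-- one elimination step: vertex `v` is eliminated, `a, b, c` are the remaining vertices it is
related to (`38` is a dummy), `es` are the edges used, `rs` the earlier relations used, and
`mask` codes the resulting relation -/
structure Step where
  v : ℕ
  a : ℕ
  b : ℕ
  c : ℕ
  es : List (ℕ × ℕ)
  rs : List (ℕ × ℕ × ℕ × ℕ)
  mask : ℕ

def steps : List Step := [
    ⟨37, 23, 27, 38, [(23, 37907252649), (27, 15263541594)], [],
      105312291572009967533450424882877733289313678216697495990447374335⟩,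
    ⟨36, 23, 26, 38, [(23, 37907252649), (26, 6598043928)], [],
      105312291572009967533450424882877733289313678216697495990447374335⟩,
    ⟨35, 13, 18, 38, [(13, 37907252649), (18, 15263541594)], [],
      105312291572009967533450424882877733289313678216697495990447374335⟩,
    ⟨34, 13, 17, 38, [(13, 37907252649), (17, 6598043928)], [],
      105312291572009967533450424882877733289313678216697495990447374335⟩,
    ⟨33, 8, 9, 38, [(8, 11942462826), (9, 15263541594)], [],
      105311896211147489038617298641380938238433510334809380910473936895⟩,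
    ⟨32, 7, 8, 38, [(7, 6598043928), (8, 11942462826)], [],
      105312285489535165925248860830681613837009288203184922520036048895⟩,
    ⟨31, 4, 8, 38, [(4, 6598043928), (8, 15263541594)], [],
      105286982394360101846393592494231010007367154261704731418467233855⟩,
    ⟨30, 23, 26, 27, [(23, 16371920250), (26, 25423691580), (27, 46572750315)], [],
      105312291369720556224720946073137113022365075682594522460298674175⟩,
    ⟨29, 23, 25, 27, [(23, 15263541594), (25, 7706422584), (27, 57885392565)], [],
      105293003630639986858951510098487031372842541745821698904109612735⟩,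
    ⟨28, 25, 26, 27, [(25, 24315312924), (26, 6598043928), (27, 15263541594)], [],
      90508210378004783963009682357920304960758791310114642505755790525⟩,
    ⟨27, 23, 25, 26, [], [(23, 27, 38,
      105312291572009967533450424882877733289313678216697495990447374335), (23, 26, 27,
      105312291369720556224720946073137113022365075682594522460298674175), (23, 25, 27,
      105293003630639986858951510098487031372842541745821698904109612735), (25, 26, 27,
      90508210378004783963009682357920304960758791310114642505755790525)],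
      78160654240530546486713969153668052112844089071745608838380252667⟩,
    ⟨26, 3, 23, 25, [(3, 24315312924)], [(23, 26, 38,
      105312291572009967533450424882877733289313678216697495990447374335), (23, 25, 26,
      78160654240530546486713969153668052112844089071745608838380252667)],
      103665180173190972645898035661849067142296952744462137081064324063⟩,
    ⟨25, 3, 23, 24, [(3, 6598043928), (24, 25423691580)], [(3, 23, 25,
      103665180173190972645898035661849067142296952744462137081064324063)],
      105311086465023992181172845229682335294894067131467000245078980095⟩,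
    ⟨24, 3, 22, 23, [(22, 46572750315), (23, 55624521645)], [(3, 23, 24,
      105311086465023992181172845229682335294894067131467000245078980095)],
      105312290871659505441857453318604775648878976750794379563864948735⟩,
    ⟨23, 0, 3, 22, [(0, 63181640655), (3, 14203333746)], [(3, 22, 23,
      105312290871659505441857453318604775648878976750794379563864948735)],
      100298644970396178876491545580062058698027620264877043201706131415⟩,
    ⟨22, 0, 3, 38, [(0, 40168123569), (3, 15263541594)], [(0, 3, 22,
      100298644970396178876491545580062058698027620264877043201706131415)],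
      25711007176022447961933885510433903456750585799914177819316160⟩,
    ⟨21, 13, 17, 18, [(13, 16371920250), (17, 25423691580), (18, 46572750315)], [],
      105312291369720556224720946073137113022365075682594522460298674175⟩,
    ⟨20, 13, 16, 18, [(13, 15263541594), (16, 7706422584), (18, 57885392565)], [],
      105293003630639986858951510098487031372842541745821698904109612735⟩,
    ⟨19, 16, 17, 18, [(16, 24315312924), (17, 6598043928), (18, 15263541594)], [],
      90508210378004783963009682357920304960758791310114642505755790525⟩,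
    ⟨18, 13, 16, 17, [], [(13, 18, 38,
      105312291572009967533450424882877733289313678216697495990447374335), (13, 17, 18,
      105312291369720556224720946073137113022365075682594522460298674175), (13, 16, 18,
      105293003630639986858951510098487031372842541745821698904109612735), (16, 17, 18,
      90508210378004783963009682357920304960758791310114642505755790525)],
      78160654240530546486713969153668052112844089071745608838380252667⟩,
    ⟨17, 3, 13, 16, [(3, 24315312924)], [(13, 17, 38,
      105312291572009967533450424882877733289313678216697495990447374335), (13, 16, 17,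
      78160654240530546486713969153668052112844089071745608838380252667)],
      103665180173190972645898035661849067142296952744462137081064324063⟩,
    ⟨16, 3, 13, 15, [(3, 6598043928), (15, 25423691580)], [(3, 13, 16,
      103665180173190972645898035661849067142296952744462137081064324063)],
      105311086465023992181172845229682335294894067131467000245078980095⟩,
    ⟨15, 3, 13, 14, [(13, 55624521645), (14, 46572750315)], [(3, 13, 15,
      105311086465023992181172845229682335294894067131467000245078980095)],
      105311086465023992181172845229682335294894067131467000245078980095⟩,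
    ⟨14, 1, 3, 13, [(1, 32980810590), (3, 15263541594)], [(3, 13, 14,
      105311086465023992181172845229682335294894067131467000245078980095)],
      105299436066123398698747756859476173680801014891009570028826656703⟩,
    ⟨13, 1, 3, 38, [(1, 40168123569), (3, 14203333746)], [(1, 3, 13,
      105299436066123398698747756859476173680801014891009570028826656703)],
      105286976215338081073724425641242191525481347064340542684192305215⟩,
    ⟨12, 7, 8, 9, [(7, 25423691580), (8, 55624521645), (9, 46572750315)], [],
      104283847396563943447928871593450404529643887749171847349943914495⟩,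
    ⟨11, 4, 8, 9, [(4, 7706422584), (8, 16371920250), (9, 11942462826)], [],
      105310018802965467216256714732944709349107807519099536890279228415⟩,
    ⟨10, 4, 7, 9, [(4, 16371920250), (7, 15263541594), (9, 6598043928)], [],
      92029573541559764913539427176322803510109814679145528696059654589⟩,
    ⟨9, 4, 7, 8, [], [(8, 9, 38,
      105311896211147489038617298641380938238433510334809380910473936895), (7, 8, 9,
      104283847396563943447928871593450404529643887749171847349943914495), (4, 8, 9,
      105310018802965467216256714732944709349107807519099536890279228415), (4, 7, 9,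
      92029573541559764913539427176322803510109814679145528696059654589)],
      105311871004661183454136594048597000527925986345359813485699004415⟩,
    ⟨8, 4, 6, 7, [(6, 40168123569)], [(7, 8, 38,
      105312285489535165925248860830681613837009288203184922520036048895), (4, 8, 38,
      105286982394360101846393592494231010007367154261704731418467233855), (4, 7, 8,
      105311871004661183454136594048597000527925986345359813485699004415)],
      98730273433139387199063360202783662266825127019880102367573573615⟩,
    ⟨7, 3, 4, 6, [(3, 6598043928), (6, 32980810590)], [(4, 6, 7,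
      98730273433139387199063360202783662266825127019880102367573573615)],
      105312216343336291905670269770846570937749961107556506491206762495⟩,
    ⟨6, 3, 4, 5, [(4, 55624521645), (5, 48833621235)], [(3, 4, 6,
      105312216343336291905670269770846570937749961107556506491206762495)],
      105312216343336291905670269770846570937749961107556506491206762495⟩,
    ⟨5, 1, 3, 4, [(1, 25423691580), (3, 7706422584)], [(3, 4, 5,
      105312216343336291905670269770846570937749961107556506491206762495)],
      105312279089833781379023802785491996170876856046772754237502783487⟩,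
    ⟨4, 0, 1, 3, [(0, 25423691580), (1, 23255105076), (3, 7706422584)], [(1, 3, 4,
      105312279089833781379023802785491996170876856046772754237502783487)],
      96799839775541349161480133962393386664279657287646041794327172047⟩,
    ⟨3, 0, 1, 2, [(2, 16371920250)], [(0, 3, 38,
      25711007176022447961933885510433903456750585799914177819316160), (1, 3, 38,
      105286976215338081073724425641242191525481347064340542684192305215), (0, 1, 3,
      96799839775541349161480133962393386664279657287646041794327172047)],
      21297127311311537488125500198535016387240332391694495791713600⟩,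
    ⟨2, 0, 1, 38, [(0, 48833621235), (1, 57885392565)], [(0, 1, 2,
      21297127311311537488125500198535016387240332391694495791713600)], 0⟩]

def env (v a b w x y z p : ℕ) : ℕ :=
  if p = 38 then 0 else if p = v then w else if p = a then x else if p = b then y else z

def inScope (s : Step) (p : ℕ) : Bool := p == 38 || p == s.v || p == s.a || p == s.b || p == s.c

def relOK (r : ℕ × ℕ × ℕ × ℕ) (f : ℕ → ℕ) : Bool :=
  r.2.2.2.testBit (36 * f r.1 + 6 * f r.2.1 + f r.2.2.1)

def stepBody (s : Step) : Bool :=
  (List.range 6).all fun x => (List.range 6).all fun y => (List.range 6).all fun z =>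
    s.mask.testBit (36 * x + 6 * y + z) || (List.range 6).all fun w =>
      !((s.es.all fun e => e.2.testBit (6 * w + env s.v s.a s.b w x y z e.1)) &&
        (s.rs.all fun r => relOK r (env s.v s.a s.b w x y z)))

/-- `K` is the table of compatible pairs of arrangements of the edge `v u` -/
def edgeOK (v u K : ℕ) : Bool :=
  adjB v u && (v < 38 && (u < 38 && ((List.range 6).all fun w => (List.range 6).all fun s =>
    (compatB v w u s || !K.testBit (6 * w + s)) && (K.testBit (6 * w + s) || !compatB v w u s))))

def checkStep (prev : List (ℕ × ℕ × ℕ × ℕ)) (s : Step) : Bool :=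
  (s.es.all fun e => edgeOK s.v e.1 e.2 && inScope s e.1) &&
  (s.rs.all fun r => prev.contains r && (inScope s r.1 && (inScope s r.2.1 && inScope s r.2.2.1))) &&
  stepBody s

def checkAll : List (ℕ × ℕ × ℕ × ℕ) → List Step → Bool
  | _, [] => false
  | prev, s :: t => checkStep prev s && (s.mask == 0 || checkAll ((s.a, s.b, s.c, s.mask) :: prev) t)

theorem checkAll_true : checkAll [] steps = true := by decide +kernel

theorem env_eq {st : ℕ → ℕ} (h38 : st 38 = 0) (s : Step) (p : ℕ) (hp : inScope s p = true) :
    env s.v s.a s.b (st s.v) (st s.a) (st s.b) (st s.c) p = st p := by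
  unfold env
  split_ifs with h1 h2 h3 h4
  · rw [h1, h38]
  · rw [h2]
  · rw [h3]
  · rw [h4]
  · simp [inScope, h1, h2, h3, h4] at hp
    rw [hp]

theorem checkStep_sound {st : ℕ → ℕ} (h6 : ∀ v, st v < 6) (h38 : st 38 = 0)
    (hadj : ∀ u v, u < 38 → v < 38 → adjB u v = true → compatB u (st u) v (st v) = true)
    {prev : List (ℕ × ℕ × ℕ × ℕ)} (hprev : ∀ r ∈ prev, relOK r st = true) {s : Step}
    (hs : checkStep prev s = true) : relOK (s.a, s.b, s.c, s.mask) st = true := by
  unfold checkStep at hs
  rw [Bool.and_eq_true, Bool.and_eq_true, List.all_eq_true, List.all_eq_true] at hs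
  obtain ⟨⟨he, hr⟩, hb⟩ := hs
  unfold stepBody at hb
  rw [List.all_eq_true] at hb
  have hb := hb (st s.a) (List.mem_range.2 (h6 _))
  rw [List.all_eq_true] at hb
  have hb := hb (st s.b) (List.mem_range.2 (h6 _))
  rw [List.all_eq_true] at hb
  have hb := hb (st s.c) (List.mem_range.2 (h6 _))
  rw [Bool.or_eq_true] at hb
  rcases hb with hb | hb
  · exact hb
  · exfalso
    rw [List.all_eq_true] at hb
    have hb := hb (st s.v) (List.mem_range.2 (h6 _))
    rw [Bool.not_eq_true', Bool.and_eq_false_iff] at hb
    rcases hb with hb | hb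
    · have : (s.es.all fun e => e.2.testBit (6 * st s.v +
          env s.v s.a s.b (st s.v) (st s.a) (st s.b) (st s.c) e.1)) = true := by
        rw [List.all_eq_true]
        intro e hee
        have h := he e hee
        rw [Bool.and_eq_true] at h
        obtain ⟨h1, h2⟩ := h
        rw [env_eq h38 s _ h2]
        unfold edgeOK at h1
        rw [Bool.and_eq_true, Bool.and_eq_true, Bool.and_eq_true, decide_eq_true_iff,
          decide_eq_true_iff, List.all_eq_true] at h1
        obtain ⟨h3, h4, h5, h6'⟩ := h1
        have h7 := h6' (st s.v) (List.mem_range.2 (h6 _))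
        rw [List.all_eq_true] at h7
        have h8 := h7 (st e.1) (List.mem_range.2 (h6 _))
        rw [hadj _ _ h4 h5 h3] at h8
        simpa using h8
      rw [this] at hb; cases hb
    · have : (s.rs.all fun r => relOK r
          (env s.v s.a s.b (st s.v) (st s.a) (st s.b) (st s.c))) = true := by
        rw [List.all_eq_true]
        intro r hrr
        have h := hr r hrr
        rw [Bool.and_eq_true, Bool.and_eq_true, Bool.and_eq_true] at h
        obtain ⟨h1, h2, h3, h4⟩ := h
        have h5 := hprev r (by simpa using h1)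
        unfold relOK at h5 ⊢
        rw [env_eq h38 s _ h2, env_eq h38 s _ h3, env_eq h38 s _ h4]
        exact h5
      rw [this] at hb; cases hb

theorem checkAll_sound {st : ℕ → ℕ} (h6 : ∀ v, st v < 6) (h38 : st 38 = 0)
    (hadj : ∀ u v, u < 38 → v < 38 → adjB u v = true → compatB u (st u) v (st v) = true) :
    ∀ (l : List Step) (prev : List (ℕ × ℕ × ℕ × ℕ)), (∀ r ∈ prev, relOK r st = true) →
      checkAll prev l = true → False := by
  intro l
  induction l with
  | nil => intro prev _ h; cases h
  | cons s t ih =>
    intro prev hprev h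
    unfold checkAll at h
    rw [Bool.and_eq_true, Bool.or_eq_true] at h
    obtain ⟨h1, h2⟩ := h
    have h3 := checkStep_sound h6 h38 hadj hprev h1
    rcases h2 with h2 | h2
    · have h0 : s.mask = 0 := by simpa using h2
      unfold relOK at h3
      simp [h0] at h3
    · refine ih _ ?_ h2
      intro r hr
      rw [List.mem_cons] at hr
      rcases hr with rfl | hr
      · exact h3
      · exact hprev r hr

theorem arrangement_check : ((List.range 38).all fun v => (lst v).all fun x =>
    (lst v).all fun y => (lst v).all fun z => x == y || (x == z || (y == z ||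
      (List.range 6).any fun s => x == colr v s 0 && (y == colr v s 1 && z == colr v s 2)))) =
    true := by decide +kernel

theorem arrangement (v : ℕ) (hv : v < 38) (x : ℕ) (hx : x ∈ lst v) (y : ℕ) (hy : y ∈ lst v)
    (z : ℕ) (hz : z ∈ lst v) (hxy : x ≠ y) (hxz : x ≠ z) (hyz : y ≠ z) :
    ∃ s < 6, x = colr v s 0 ∧ y = colr v s 1 ∧ z = colr v s 2 := by
  have h := arrangement_check
  rw [List.all_eq_true] at h
  have h := h v (List.mem_range.2 hv)
  rw [List.all_eq_true] at h
  have h := h x hx
  rw [List.all_eq_true] at h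
  have h := h y hy
  rw [List.all_eq_true] at h
  have h := h z hz
  rw [Bool.or_eq_true, Bool.or_eq_true, Bool.or_eq_true, beq_iff_eq, beq_iff_eq, beq_iff_eq,
    List.any_eq_true] at h
  rcases h with h | h | h | ⟨s, hs, h⟩
  · exact absurd h hxy
  · exact absurd h hxz
  · exact absurd h hyz
  · rw [Bool.and_eq_true, Bool.and_eq_true, beq_iff_eq, beq_iff_eq, beq_iff_eq] at h
    exact ⟨s, List.mem_range.1 hs, h⟩

theorem lst_nodup : ∀ v < 38, (lst v).toFinset.card = 3 := by decide +kernel

theorem not_packable_three : ¬ ListPackable G 3 := by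
  intro h
  obtain ⟨c, h1, h2, h3⟩ := h (fun v => (lst v).toFinset) (fun v => lst_nodup v v.2)
  have key : ∀ v : ℕ, ∃ s < 6, (∀ h : v < 38, c 0 ⟨v, h⟩ = colr v s 0 ∧ c 1 ⟨v, h⟩ = colr v s 1 ∧
      c 2 ⟨v, h⟩ = colr v s 2) ∧ (v = 38 → s = 0) := by
    intro v
    by_cases hv : v < 38
    · obtain ⟨s, hs, e⟩ := arrangement v hv (c 0 ⟨v, hv⟩) (by simpa using h1 0 ⟨v, hv⟩)
        (c 1 ⟨v, hv⟩) (by simpa using h1 1 ⟨v, hv⟩) (c 2 ⟨v, hv⟩) (by simpa using h1 2 ⟨v, hv⟩)
        (h3 0 1 _ (by decide)) (h3 0 2 _ (by decide)) (h3 1 2 _ (by decide))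
      exact ⟨s, hs, fun _ => e, fun h => by omega⟩
    · exact ⟨0, by norm_num, fun h => absurd h hv, fun _ => rfl⟩
  choose st hst6 hst hst38 using key
  refine checkAll_sound hst6 (hst38 38 rfl) ?_ steps [] (by simp) checkAll_true
  intro u v hu hv huv
  unfold compatB
  rw [List.all_eq_true]
  intro i hi
  rw [List.mem_range] at hi
  rw [bne_iff_ne]
  obtain ⟨a0, a1, a2⟩ := hst u hu
  obtain ⟨b0, b1, b2⟩ := hst v hv
  have hG : G.Adj ⟨u, hu⟩ ⟨v, hv⟩ := huv
  interval_cases i
  · rw [← a0, ← b0]; exact h2 0 _ _ hG
  · rw [← a1, ← b1]; exact h2 1 _ _ hG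
  · rw [← a2, ← b2]; exact h2 2 _ _ hG

/-! ### Lists of size one and two -/

theorem adj_of {u v : Fin 38} (h : adjB u v = true) : G.Adj u v := h

theorem not_packable_one : ¬ ListPackable G 1 := by
  intro h
  obtain ⟨c, h1, h2, -⟩ := h (fun _ => {0}) (fun _ => rfl)
  have e1 := h1 0 (0 : Fin 38)
  have e2 := h1 0 (2 : Fin 38)
  rw [Finset.mem_singleton] at e1 e2
  exact h2 0 (0 : Fin 38) (2 : Fin 38) (adj_of (by decide +kernel)) (by rw [e1, e2])

/-- lists of size two without packing on a 4-cycle -/
def L2 (v : Fin 38) : Finset ℕ :=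
  if v = (0 : Fin 38) then {1, 4} else if v = (2 : Fin 38) then {1, 5} else if v = (1 : Fin 38) then {1, 3}
  else if v = (4 : Fin 38) then {3, 4} else {8, 9}

theorem L2_card : ∀ v, (L2 v).card = 2 := by decide +kernel

theorem not_packable_two : ¬ ListPackable G 2 := by
  intro h
  obtain ⟨c, h1, h2, h3⟩ := h L2 L2_card
  have a0 := h1 0 (0 : Fin 38)
  have a1 := h1 1 (0 : Fin 38)
  have b0 := h1 0 (2 : Fin 38)
  have b1 := h1 1 (2 : Fin 38)
  have c0 := h1 0 (1 : Fin 38)
  have c1 := h1 1 (1 : Fin 38)
  have d0 := h1 0 (4 : Fin 38)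
  have d1 := h1 1 (4 : Fin 38)
  have hL0 : L2 (0 : Fin 38) = {1, 4} := by decide +kernel
  have hL1 : L2 (2 : Fin 38) = {1, 5} := by decide +kernel
  have hL2 : L2 (1 : Fin 38) = {1, 3} := by decide +kernel
  have hL3 : L2 (4 : Fin 38) = {3, 4} := by decide +kernel
  rw [hL0, Finset.mem_insert, Finset.mem_singleton] at a0 a1
  rw [hL1, Finset.mem_insert, Finset.mem_singleton] at b0 b1
  rw [hL2, Finset.mem_insert, Finset.mem_singleton] at c0 c1
  rw [hL3, Finset.mem_insert, Finset.mem_singleton] at d0 d1
  have ea := h3 0 1 (0 : Fin 38) (by decide)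
  have eb := h3 0 1 (2 : Fin 38) (by decide)
  have ec := h3 0 1 (1 : Fin 38) (by decide)
  have ed := h3 0 1 (4 : Fin 38) (by decide)
  have g01 : G.Adj (0 : Fin 38) (2 : Fin 38) := adj_of (by decide +kernel)
  have g12 : G.Adj (2 : Fin 38) (1 : Fin 38) := adj_of (by decide +kernel)
  have g23 : G.Adj (1 : Fin 38) (4 : Fin 38) := adj_of (by decide +kernel)
  have g30 : G.Adj (4 : Fin 38) (0 : Fin 38) := adj_of (by decide +kernel)
  have f1 := h2 0 _ _ g01
  have f2 := h2 1 _ _ g01
  have f3 := h2 0 _ _ g12
  have f4 := h2 1 _ _ g12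
  have f5 := h2 0 _ _ g23
  have f6 := h2 1 _ _ g23
  have f7 := h2 0 _ _ g30
  have f8 := h2 1 _ _ g30
  omega

/-! ### The graph is bipartite and planar -/

theorem bip_aux : ∀ u v : Fin 38, adjB u v = true →
    decide (sideL.getD u 0 = 0) ≠ decide (sideL.getD v 0 = 0) := by decide +kernel

theorem G_bipartite : G.IsBipartite := by
  refine ⟨SimpleGraph.Coloring.mk
    (fun v : Fin 38 => if sideL.getD v 0 = 0 then (0 : Fin 2) else 1) ?_⟩
  intro u v h
  have := bip_aux u v h
  by_cases h1 : sideL.getD u 0 = 0 <;> by_cases h2 : sideL.getD v 0 = 0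
  · exact absurd (by rw [decide_eq_true h1, decide_eq_true h2]) this
  · rw [if_pos h1, if_neg h2]; decide
  · rw [if_neg h1, if_pos h2]; decide
  · exact absurd (by rw [decide_eq_false h1, decide_eq_false h2]) this

/-- twice the signed area of a triangle -/
def cr (p q r : ℝ × ℝ) : ℝ := (q.1 - p.1) * (r.2 - p.2) - (q.2 - p.2) * (r.1 - p.1)

theorem cr_seg {p q x : ℝ × ℝ} (h : x ∈ segment ℝ p q) : cr p q x = 0 := by
  rw [segment_eq_image] at h
  obtain ⟨t, -, rfl⟩ := h
  simp only [cr, Prod.fst_add, Prod.snd_add, Prod.smul_fst, Prod.smul_snd, smul_eq_mul]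
  ring

theorem cr_affine {p q x y z : ℝ × ℝ} (h : z ∈ segment ℝ x y) :
    ∃ t : ℝ, 0 ≤ t ∧ t ≤ 1 ∧ cr p q z = (1 - t) * cr p q x + t * cr p q y ∧
      (t = 0 → z = x) ∧ (t = 1 → z = y) := by
  rw [segment_eq_image] at h
  obtain ⟨t, ht, rfl⟩ := h
  refine ⟨t, ht.1, ht.2, ?_, ?_, ?_⟩
  · simp only [cr, Prod.fst_add, Prod.snd_add, Prod.smul_fst, Prod.smul_snd, smul_eq_mul]
    ring
  · rintro rfl; simp
  · rintro rfl; simp

theorem no_meet {p q x y z : ℝ × ℝ} (h : 0 < cr p q x * cr p q y) (h1 : z ∈ segment ℝ p q)
    (h2 : z ∈ segment ℝ x y) : False := by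
  obtain ⟨t, t0, t1, e, -, -⟩ := cr_affine (p := p) (q := q) h2
  rw [cr_seg h1] at e
  rcases lt_or_gt_of_ne (show cr p q x ≠ 0 by rintro h0; rw [h0, zero_mul] at h; exact lt_irrefl _ h)
    with hx | hx
  · have hy : cr p q y < 0 := by
      by_contra hy; push Not at hy
      have := mul_nonpos_of_nonpos_of_nonneg hx.le hy
      linarith
    nlinarith [mul_nonneg t0 (neg_nonneg.2 hy.le), mul_nonneg (sub_nonneg.2 t1) (neg_nonneg.2 hx.le),
      mul_pos (neg_pos.2 hx) (neg_pos.2 hy)]
  · have hy : 0 < cr p q y := by
      by_contra hy; push Not at hy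
      have := mul_nonpos_of_nonneg_of_nonpos hx.le hy
      linarith
    nlinarith [mul_nonneg t0 hy.le, mul_nonneg (sub_nonneg.2 t1) hx.le, mul_pos hx hy]

def pz (v : ℕ) : ℤ × ℤ := posL.getD v (0, 0)

def crz (p q r : ℤ × ℤ) : ℤ := (q.1 - p.1) * (r.2 - p.2) - (q.2 - p.2) * (r.1 - p.1)

/-- the drawing -/
noncomputable def pos (v : Fin 38) : ℝ × ℝ := (((pz v).1 : ℝ), ((pz v).2 : ℝ))

theorem cr_pos (u v w : Fin 38) : cr (pos u) (pos v) (pos w) = (crz (pz u) (pz v) (pz w) : ℤ) := by
  simp [cr, crz, pos]

/-- the finite check for a pair of edges `u v` and `x y` -/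
def pairOK (e f : ℕ × ℕ) : Bool :=
  if e.1 = f.1 then (e.2 == f.2 || crz (pz e.1) (pz e.2) (pz f.2) != 0)
  else if e.2 = f.2 then crz (pz e.2) (pz e.1) (pz f.1) != 0
  else decide (0 < crz (pz e.1) (pz e.2) (pz f.1) * crz (pz e.1) (pz e.2) (pz f.2)) ||
    decide (0 < crz (pz f.1) (pz f.2) (pz e.1) * crz (pz f.1) (pz f.2) (pz e.2))

theorem pairs_ok : (edgesL.all fun e => edgesL.all fun f => pairOK e f) = true := by
  decide +kernel

theorem sides_ok : (edgesL.all fun e => sideL.getD e.1 0 == 0 && (sideL.getD e.2 0 == 1 &&
    (decide (e.1 < 38) && decide (e.2 < 38)))) = true := by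
  decide +kernel

theorem verts_ok : (edgesL.all fun e => (List.range 38).all fun w =>
    w == e.1 || (w == e.2 || crz (pz e.1) (pz e.2) (pz w) != 0)) = true := by
  decide +kernel

theorem pos_inj : ∀ u v : Fin 38, pz u = pz v → u = v := by decide +kernel

theorem pos_injective : Function.Injective pos := by
  intro u v h
  apply pos_inj
  simp only [pos, Prod.mk.injEq, Int.cast_inj] at h
  exact Prod.ext h.1 h.2

theorem meet_pair {u v x y : Fin 38} (he : ((u : ℕ), (v : ℕ)) ∈ edgesL)
    (hf : ((x : ℕ), (y : ℕ)) ∈ edgesL) (hne : ¬ (u = x ∧ v = y)) {p : ℝ × ℝ}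
    (h1 : p ∈ segment ℝ (pos u) (pos v)) (h2 : p ∈ segment ℝ (pos x) (pos y)) :
    (p = pos u ∧ u = x) ∨ (p = pos v ∧ v = y) := by
  have hp := pairs_ok
  rw [List.all_eq_true] at hp
  have hp := hp _ he
  rw [List.all_eq_true] at hp
  have hp := hp _ hf
  unfold pairOK at hp
  simp only at hp
  have single : ∀ {a b c : Fin 38} {q : ℝ × ℝ}, crz (pz a) (pz b) (pz c) ≠ 0 →
      q ∈ segment ℝ (pos a) (pos b) → q ∈ segment ℝ (pos a) (pos c) → q = pos a := by
    intro a b c q h0 h1 h2
    obtain ⟨t, t0, t1, e, ht, -⟩ := cr_affine (p := pos a) (q := pos b) h2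
    rw [cr_seg h1, cr_pos, cr_pos] at e
    have h00 : crz (pz a) (pz b) (pz a) = 0 := by simp [crz]
    rw [h00] at e
    have : t * ((crz (pz a) (pz b) (pz c) : ℤ) : ℝ) = 0 := by
      have := e.symm; simpa using this
    rcases mul_eq_zero.1 this with h | h
    · exact ht h
    · exact absurd (by exact_mod_cast h) h0
  split_ifs at hp with c1 c2
  · left
    have hux : u = x := Fin.ext c1
    subst hux
    refine ⟨?_, rfl⟩
    rw [Bool.or_eq_true] at hp
    rcases hp with hp | hp
    · exact absurd ⟨rfl, Fin.ext (by simpa using hp)⟩ hne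
    · rw [bne_iff_ne] at hp
      exact single hp h1 h2
  · right
    have hvy : v = y := Fin.ext c2
    subst hvy
    refine ⟨?_, rfl⟩
    rw [bne_iff_ne] at hp
    exact single hp (by rwa [segment_symm] at h1) (by rwa [segment_symm] at h2)
  · exfalso
    rw [Bool.or_eq_true, decide_eq_true_iff, decide_eq_true_iff] at hp
    rcases hp with hp | hp
    · refine no_meet (p := pos u) (q := pos v) (x := pos x) (y := pos y) ?_ h1 h2
      rw [cr_pos, cr_pos]; exact_mod_cast hp
    · refine no_meet (p := pos x) (q := pos y) (x := pos u) (y := pos v) ?_ h2 h1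
      rw [cr_pos, cr_pos]; exact_mod_cast hp

theorem adj_cases {u v : Fin 38} (h : G.Adj u v) :
    ((u : ℕ), (v : ℕ)) ∈ edgesL ∨ ((v : ℕ), (u : ℕ)) ∈ edgesL := by
  have h' : adjB u v = true := h
  unfold adjB at h'
  rw [Bool.or_eq_true] at h'
  simpa using h'

theorem vertex_off {u v w : Fin 38} (he : ((u : ℕ), (v : ℕ)) ∈ edgesL) (h1 : w ≠ u) (h2 : w ≠ v) :
    pos w ∉ segment ℝ (pos u) (pos v) := by
  intro h
  have hv := verts_ok
  rw [List.all_eq_true] at hv
  have hv := hv _ he
  rw [List.all_eq_true] at hv
  have hv := hv (w : ℕ) (List.mem_range.2 w.2)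
  have e := cr_seg h
  rw [cr_pos] at e
  have e0 : crz (pz u) (pz v) (pz w) = 0 := by exact_mod_cast e
  have n1 : (w : ℕ) ≠ u := fun h => h1 (Fin.ext h)
  have n2 : (w : ℕ) ≠ v := fun h => h2 (Fin.ext h)
  simp [n1, n2, e0] at hv

theorem G_planar : IsPlanar G := by
  refine ⟨pos, pos_injective, ?_, ?_⟩
  · intro u v w h h1 h2
    rcases adj_cases h with h | h
    · exact vertex_off h h1 h2
    · rw [segment_symm]; exact vertex_off h h2 h1
  · intro u v x y h1 h2 hne p hp1 hp2
    rcases adj_cases h1 with g1 | g1 <;> rcases adj_cases h2 with g2 | g2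
    · rcases meet_pair g1 g2 (fun h => hne (by rw [h.1, h.2])) hp1 hp2 with h | h
      · exact Or.inl h.1
      · exact Or.inr h.1
    · rw [segment_symm] at hp2
      rcases meet_pair g1 g2 (fun h => hne (by rw [h.1, h.2, Sym2.eq_swap])) hp1 hp2 with h | h
      · exact Or.inl h.1
      · exact Or.inr h.1
    · rw [segment_symm] at hp1
      rcases meet_pair g1 g2 (fun h => hne (by rw [h.1, h.2, Sym2.eq_swap])) hp1 hp2 with h | h
      · exact Or.inr h.1
      · exact Or.inl h.1
    · rw [segment_symm] at hp1 hp2
      rcases meet_pair g1 g2 (fun h => hne (by rw [h.1, h.2])) hp1 hp2 with h | h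
      · exact Or.inr h.1
      · exact Or.inl h.1


/-- The list packing number of `G` is at least 4. -/
theorem four_le {k : ℕ} (hk : 1 ≤ k) (h : ListPackable G k) : 4 ≤ k := by
  by_contra hlt
  push Not at hlt
  interval_cases k
  · exact not_packable_one h
  · exact not_packable_two h
  · exact not_packable_three h

end Pool.Agent.Lib.MP_6a62cd_co.ListEx
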