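import Mathlib
import Pool.Agent.Lib.MP_6a62cd_co.FourDefs
import Pool.Agent.Lib.MP_6a62cd_co.FourA
import Pool.Agent.Lib.MP_6a62cd_co.FourB
import Pool.Agent.Lib.MP_6a62cd_co.FourC
import Pool.Agent.Lib.MP_6a62cd_co.FourF
import Pool.Agent.Lib.MP_6a62cd_co.FourG
import Pool.Agent.Lib.MP_6a62cd_co.ListEx

/-!
The list packing number and the correspondence packing number of the class of planar bipartite
graphs are both equal to 4 (assembly).
-/

namespace Pool.Agent.Lib.MP_6a62cd_co.FourMain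

open Pool.Agent.Lib.MP_6a62cd_co.Four

/-- every 4-fold cover of a planar triangle-free graph has a packing -/
theorem planar_coverPackable {V : Type} [Finite V] {G : SimpleGraph V} (h : IsPlanar G)
    (htri : G.CliqueFree 3) : CoverPackable G 4 := by
  obtain ⟨F₁, F₂, r₁, r₂, h₁, h₂, hG⟩ := exists_forests G (plane_sparse h htri)
  exact coverPackable_four_of_forests G F₁ F₂ h₁ h₂ hG

theorem bipartite_cliqueFree {V : Type} {G : SimpleGraph V} (h : G.IsBipartite) :
    G.CliqueFree 3 := by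
  obtain ⟨C⟩ := h
  exact (SimpleGraph.Colorable.cliqueFree (n := 2) ⟨C⟩ (by norm_num))

theorem listPackingNumber_le {V : Type} {G : SimpleGraph V} (h : ListPackable G 4) :
    listPackingNumber G ≤ 4 := Nat.sInf_le ⟨by norm_num, h⟩

theorem corrPackingNumber_le {V : Type} {G : SimpleGraph V} (h : CoverPackable G 4) :
    corrPackingNumber G ≤ 4 := Nat.sInf_le ⟨by norm_num, h⟩

theorem list_max :
    IsGreatest {m : ℕ | ∃ (n : ℕ) (G : SimpleGraph (Fin n)),
      IsPlanar G ∧ G.IsBipartite ∧ listPackingNumber G = m} 4 := by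
  refine ⟨?_, ?_⟩
  · have hG := planar_coverPackable Pool.Agent.Lib.MP_6a62cd_co.ListEx.G_planar
      (bipartite_cliqueFree Pool.Agent.Lib.MP_6a62cd_co.ListEx.G_bipartite)
    refine ⟨38, Pool.Agent.Lib.MP_6a62cd_co.ListEx.G,
      Pool.Agent.Lib.MP_6a62cd_co.ListEx.G_planar,
      Pool.Agent.Lib.MP_6a62cd_co.ListEx.G_bipartite,
      le_antisymm (listPackingNumber_le hG.listPackable) ?_⟩
    obtain ⟨h1, h2⟩ := Nat.sInf_mem
      (s := {k | 1 ≤ k ∧ ListPackable Pool.Agent.Lib.MP_6a62cd_co.ListEx.G k})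
      ⟨4, by norm_num, hG.listPackable⟩
    exact Pool.Agent.Lib.MP_6a62cd_co.ListEx.four_le h1 h2
  · rintro m ⟨n, G, hp, hb, rfl⟩
    exact listPackingNumber_le (planar_coverPackable hp (bipartite_cliqueFree hb)).listPackable

theorem corr_max :
    IsGreatest {m : ℕ | ∃ (n : ℕ) (G : SimpleGraph (Fin n)),
      IsPlanar G ∧ G.IsBipartite ∧ corrPackingNumber G = m} 4 := by
  refine ⟨?_, ?_⟩
  · have hG := planar_coverPackable Pool.Agent.Lib.MP_6a62cd_co.ListEx.G_planar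
      (bipartite_cliqueFree Pool.Agent.Lib.MP_6a62cd_co.ListEx.G_bipartite)
    refine ⟨38, Pool.Agent.Lib.MP_6a62cd_co.ListEx.G,
      Pool.Agent.Lib.MP_6a62cd_co.ListEx.G_planar,
      Pool.Agent.Lib.MP_6a62cd_co.ListEx.G_bipartite,
      le_antisymm (corrPackingNumber_le hG) ?_⟩
    obtain ⟨h1, h2⟩ := Nat.sInf_mem
      (s := {k | 1 ≤ k ∧ CoverPackable Pool.Agent.Lib.MP_6a62cd_co.ListEx.G k})
      ⟨4, by norm_num, hG⟩
    exact Pool.Agent.Lib.MP_6a62cd_co.ListEx.four_le h1 h2.listPackable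
  · rintro m ⟨n, G, hp, hb, rfl⟩
    exact corrPackingNumber_le (planar_coverPackable hp (bipartite_cliqueFree hb))

theorem two_forests : ∀ (V : Type) [Finite V] (G F₁ F₂ : SimpleGraph V), F₁.IsAcyclic →
    F₂.IsAcyclic → G ≤ F₁ ⊔ F₂ → CoverPackable G 4 := by
  intro V _ G F₁ F₂ h₁ h₂ hG
  obtain ⟨r₁, hr₁⟩ := exists_rankForest F₁ h₁
  obtain ⟨r₂, hr₂⟩ := exists_rankForest F₂ h₂
  exact coverPackable_four_of_forests G F₁ F₂ hr₁ hr₂ (fun u v huv => hG huv)

end Pool.Agent.Lib.MP_6a62cd_co.FourMain
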